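import Mathlib

/-!
# Hilbert 90 for an infinite Galois extension and characters with fixed values
-/

namespace Pool.Agent.N106.GAL

theorem h90 {K L : Type*} [Field K] [Field L] [Algebra K L] [IsGalois K L] (ψ : Gal(L/K) → L)
    (hmul : ∀ g h, ψ (g * h) = ψ g * ψ h) (hfix : ∀ g h : Gal(L/K), g (ψ h) = ψ h) (hne : ∀ g, ψ g ≠ 0)
    (X : Set L) [Finite X] (hX : ∀ g, (∀ x ∈ X, g x = x) → ψ g = 1) :
    ∃ Y : L, Y ≠ 0 ∧ ∀ g, g Y = ψ g * Y := by
  have hK : ∀ h, ∃ y : K, algebraMap K L y = ψ h := by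
    intro h
    have := (InfiniteGalois.mem_bot_iff_fixed (k := K) (ψ h)).2 (fun g => hfix g h)
    rwa [IntermediateField.mem_bot] at this
  choose f0 hf0 using hK
  let F := FiniteGaloisIntermediateField.adjoin K X
  have hXF : ∀ x ∈ X, x ∈ F.toIntermediateField :=
    fun x hx => FiniteGaloisIntermediateField.subset_adjoin K X hx
  let f : Gal(F/K) → Fˣ := fun g => Units.mk0 (algebraMap K F (f0 (g.liftNormal L))) (by
    intro h0
    apply hne (g.liftNormal L)
    rw [← hf0, (map_eq_zero _).1 h0, map_zero])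
  have hlift : ∀ (g : Gal(F/K)) (x : F), (g.liftNormal L) (x : L) = (g x : L) := by
    intro g x
    exact AlgEquiv.liftNormal_commutes g L x
  have hwell : ∀ g g' : Gal(L/K), (∀ x ∈ X, g x = g' x) → ψ g = ψ g' := by
    intro g g' h
    have h1 : ψ (g'⁻¹ * g) = 1 := by
      apply hX
      intro x hx
      rw [AlgEquiv.mul_apply, h x hx, ← AlgEquiv.mul_apply, inv_mul_cancel, AlgEquiv.one_apply]
    have h2 := hmul g' (g'⁻¹ * g)
    rw [mul_inv_cancel_left, h1, mul_one] at h2
    exact h2
  have hcoc : groupCohomology.IsMulCocycle₁ f := by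
    intro g h
    apply Units.ext
    rw [Units.val_mul, AlgEquiv.smul_units_def, Units.coe_map]
    change algebraMap K F (f0 ((g * h).liftNormal L)) =
      g (algebraMap K F (f0 (h.liftNormal L))) * algebraMap K F (f0 (g.liftNormal L))
    rw [AlgEquiv.commutes, ← map_mul]
    congr 1
    apply (algebraMap K L).injective
    rw [map_mul, hf0, hf0, hf0, mul_comm, ← hmul]
    apply hwell
    intro x hx
    have e1 := hlift (g * h) ⟨x, hXF x hx⟩
    have e2 := hlift h ⟨x, hXF x hx⟩
    have e3 := hlift g (h ⟨x, hXF x hx⟩)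
    rw [AlgEquiv.mul_apply]
    simp only at e1 e2
    rw [e1, e2, e3]
    rfl
  obtain ⟨y, hy⟩ := groupCohomology.isMulCoboundary₁_of_isMulCocycle₁_of_aut_to_units f hcoc
  refine ⟨((y : F) : L), fun h0 => y.ne_zero (Subtype.ext h0), fun g => ?_⟩
  have h1 := hy (g.restrictNormal F)
  rw [div_eq_iff_eq_mul] at h1
  have h2 := congrArg (fun u : Fˣ => ((u : F) : L)) h1
  simp only [AlgEquiv.smul_units_def, Units.coe_map, Units.val_mul] at h2
  have h3 : (((g.restrictNormal F) (y : F) : F) : L) = g ((y : F) : L) :=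
    AlgEquiv.restrictNormal_commutes g F (y : F)
  change (((g.restrictNormal F) (y : F) : F) : L) = _ at h2
  rw [h3] at h2
  rw [h2]
  have h4 : ((algebraMap K F (f0 ((g.restrictNormal F).liftNormal L)) : F) : L) = ψ g := by
    change algebraMap K L (f0 ((g.restrictNormal F).liftNormal L)) = _
    rw [hf0]
    apply hwell
    intro x hx
    have e1 := hlift (g.restrictNormal F) ⟨x, hXF x hx⟩
    have e2 : (((g.restrictNormal F) ⟨x, hXF x hx⟩ : F) : L) = g x :=
      AlgEquiv.restrictNormal_commutes g F ⟨x, hXF x hx⟩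
    simp only at e1
    rw [e1, e2]
  rw [← h4]
  rfl

end Pool.Agent.N106.GAL
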