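import Mathlib

/-!
# Kummer cocycles with values in `ℤ_ℓ`
-/

namespace Pool.Agent.N106.GAL

/-- the absolute Galois group of `F` -/
abbrev AbsGal (F : Type) [Field F] : Type := Gal(AlgebraicClosure F/F)

/-- the absolute Galois group of `ℚ` -/
abbrev GQ : Type := AbsGal ℚ

section E

variable {ℓ : ℕ} [hℓ : Fact ℓ.Prime] {L : Type} [Field L]

/-- compatible primitive roots of unity of order `ℓ^m` -/
structure Roots (ℓ : ℕ) {L : Type} [Field L] (ζ : ℕ → L) : Prop where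
  prim : ∀ m, IsPrimitiveRoot (ζ m) (ℓ ^ m)
  pow : ∀ m, ζ (m + 1) ^ ℓ = ζ m

/-- `E ζ m x = ζ_m^x` for an `ℓ`-adic integer `x` -/
noncomputable def E (ζ : ℕ → L) (m : ℕ) (x : ℤ_[ℓ]) : L := ζ m ^ (PadicInt.toZModPow m x).val

variable {ζ : ℕ → L}

omit hℓ in
theorem pow_eq_iff {z : L} {k : ℕ} (hz : IsPrimitiveRoot z k) (hk : k ≠ 0) (a b : ℕ) :
    z ^ a = z ^ b ↔ a ≡ b [MOD k] := by
  have h : IsOfFinOrder z := isOfFinOrder_iff_pow_eq_one.2 ⟨k, Nat.pos_of_ne_zero hk, hz.pow_eq_one⟩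
  rw [h.pow_eq_pow_iff_modEq, ← hz.eq_orderOf]

theorem E_eq (hζ : Roots ℓ ζ) {m n : ℕ} {x : ℤ_[ℓ]} (h : PadicInt.toZModPow m x = (n : ZMod (ℓ ^ m))) :
    E ζ m x = ζ m ^ n := by
  have h1 : ((PadicInt.toZModPow m x).val : ZMod (ℓ ^ m)) = (n : ZMod (ℓ ^ m)) := by
    rw [ZMod.natCast_zmod_val, h]
  rw [ZMod.natCast_eq_natCast_iff] at h1
  unfold E
  rw [pow_eq_iff (hζ.prim m) (pow_ne_zero _ hℓ.out.ne_zero)]
  exact h1

theorem exists_nat (m : ℕ) (x : ℤ_[ℓ]) : ∃ n : ℕ, PadicInt.toZModPow m x = (n : ZMod (ℓ ^ m)) :=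
  ⟨(PadicInt.toZModPow m x).val, by rw [ZMod.natCast_zmod_val]⟩

theorem E_add (hζ : Roots ℓ ζ) (m : ℕ) (x y : ℤ_[ℓ]) : E ζ m (x + y) = E ζ m x * E ζ m y := by
  obtain ⟨a, ha⟩ := exists_nat m x
  obtain ⟨b, hb⟩ := exists_nat m y
  rw [E_eq hζ ha, E_eq hζ hb, E_eq hζ (n := a + b) (by rw [map_add, ha, hb]; push_cast; rfl),
    pow_add]

theorem E_zero (hζ : Roots ℓ ζ) (m : ℕ) : E ζ m (0 : ℤ_[ℓ]) = 1 := by
  rw [E_eq hζ (n := 0) (by simp), pow_zero]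

theorem E_ne_zero (hζ : Roots ℓ ζ) (m : ℕ) (x : ℤ_[ℓ]) : E ζ m x ≠ 0 :=
  pow_ne_zero _ ((hζ.prim m).ne_zero (pow_ne_zero _ hℓ.out.ne_zero))

theorem E_mul_nat (hζ : Roots ℓ ζ) (m : ℕ) (x : ℤ_[ℓ]) (n : ℕ) :
    E ζ m (x * (n : ℤ_[ℓ])) = E ζ m x ^ n := by
  obtain ⟨a, ha⟩ := exists_nat m x
  rw [E_eq hζ ha, E_eq hζ (n := a * n) (by rw [map_mul, ha]; push_cast; simp), pow_mul]

theorem E_nat_mul (hζ : Roots ℓ ζ) (m : ℕ) (x : ℤ_[ℓ]) (n : ℕ) :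
    E ζ m ((n : ℤ_[ℓ]) * x) = E ζ m x ^ n := by
  rw [mul_comm, E_mul_nat hζ]

theorem E_eq_one_iff (hζ : Roots ℓ ζ) {m : ℕ} {x : ℤ_[ℓ]} :
    E ζ m x = 1 ↔ PadicInt.toZModPow m x = 0 := by
  unfold E
  rw [(hζ.prim m).pow_eq_one_iff_dvd]
  constructor
  · intro h
    have h1 : ((PadicInt.toZModPow m x).val : ZMod (ℓ ^ m)) = 0 :=
      (ZMod.natCast_eq_zero_iff _ _).2 h
    rwa [ZMod.natCast_zmod_val] at h1
  · intro h
    rw [h, ZMod.val_zero]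
    exact dvd_zero _

theorem E_inj (hζ : Roots ℓ ζ) {m : ℕ} {x y : ℤ_[ℓ]} (h : E ζ m x = E ζ m y) :
    PadicInt.toZModPow m x = PadicInt.toZModPow m y := by
  have h1 : E ζ m (x - y) = 1 := by
    have h2 : E ζ m (x - y) * E ζ m y = E ζ m y := by rw [← E_add hζ, sub_add_cancel, h]
    exact mul_right_cancel₀ (E_ne_zero hζ m y) (by rw [h2, one_mul])
  rw [E_eq_one_iff hζ, map_sub, sub_eq_zero] at h1
  exact h1

theorem E_congr {m : ℕ} {x y : ℤ_[ℓ]} (h : PadicInt.toZModPow m x = PadicInt.toZModPow m y) :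
    E ζ m x = E ζ m y := by
  unfold E
  rw [h]

theorem E_inj_all (hζ : Roots ℓ ζ) {x y : ℤ_[ℓ]} (h : ∀ m, E ζ m x = E ζ m y) : x = y :=
  PadicInt.ext_of_toZModPow.1 fun m => E_inj hζ (h m)

theorem E_succ_pow (hζ : Roots ℓ ζ) (m : ℕ) (x : ℤ_[ℓ]) : E ζ (m + 1) x ^ ℓ = E ζ m x := by
  obtain ⟨a, ha⟩ := exists_nat (m + 1) x
  have hb : PadicInt.toZModPow m x = (a : ZMod (ℓ ^ m)) := by
    have h1 := congrArg (ZMod.castHom (pow_dvd_pow ℓ m.le_succ) (ZMod (ℓ ^ m))) ha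
    rw [map_natCast] at h1
    rw [← h1]
    exact (RingHom.congr_fun (PadicInt.zmod_cast_comp_toZModPow m (m + 1) m.le_succ) x).symm
  rw [E_eq hζ ha, E_eq hζ hb, ← pow_mul, mul_comm, pow_mul, hζ.pow]

theorem pow_E (hζ : Roots ℓ ζ) (m : ℕ) (x : ℤ_[ℓ]) : E ζ m x ^ (ℓ ^ m) = 1 := by
  unfold E
  rw [← pow_mul, mul_comm, pow_mul, (hζ.prim m).pow_eq_one, one_pow]

/-- the `ℓ^m`-th roots of unity are the `E ζ m x` -/
theorem exists_E (hζ : Roots ℓ ζ) {m : ℕ} {z : L} (h : z ^ (ℓ ^ m) = 1) :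
    ∃ n : ℕ, z = E ζ m (n : ℤ_[ℓ]) := by
  obtain ⟨n, -, hn⟩ := (hζ.prim m).eq_pow_of_pow_eq_one h
  exact ⟨n, by rw [E_eq hζ (n := n) (by simp), hn]⟩

theorem exists_roots [IsAlgClosed L] [CharZero L] : ∃ ζ : ℕ → L, Roots ℓ ζ := by
  have key : ∀ (m : ℕ) (z : {z : L // IsPrimitiveRoot z (ℓ ^ m)}),
      ∃ w : {w : L // IsPrimitiveRoot w (ℓ ^ (m + 1))}, w.1 ^ ℓ = z.1 := by
    rintro m ⟨z, hz⟩
    have hne : ((ℓ ^ (m + 1) : ℕ) : L) ≠ 0 := by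
      exact_mod_cast pow_ne_zero _ hℓ.out.ne_zero
    have : NeZero ((ℓ ^ (m + 1) : ℕ) : L) := ⟨hne⟩
    obtain ⟨w, hw⟩ := HasEnoughRootsOfUnity.exists_primitiveRoot L (ℓ ^ (m + 1))
    have hw1 : IsPrimitiveRoot (w ^ ℓ) (ℓ ^ m) :=
      hw.pow (pow_pos hℓ.out.pos _) (pow_succ' ℓ m)
    rcases Nat.eq_zero_or_pos m with rfl | hm
    · refine ⟨⟨w, hw⟩, ?_⟩
      have h1 : z = 1 := by simpa using hz.pow_eq_one
      have h2 : w ^ ℓ = 1 := by simpa using hw1.pow_eq_one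
      change w ^ ℓ = z
      rw [h1]
      exact h2
    · obtain ⟨k, -, hk, hk2⟩ := hw1.isPrimitiveRoot_iff.1 hz
      have hk' : k.Coprime ℓ := by
        exact (Nat.coprime_pow_right_iff hm _ _).1 hk
      refine ⟨⟨w ^ k, hw.pow_of_coprime k (Nat.Coprime.pow_right _ hk')⟩, ?_⟩
      change (w ^ k) ^ ℓ = z
      rw [← hk2, ← pow_mul, ← pow_mul, mul_comm]
  choose f hf using key
  let s : (m : ℕ) → {z : L // IsPrimitiveRoot z (ℓ ^ m)} := fun m =>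
    Nat.rec ⟨1, by simp⟩ (fun m z => f m z) m
  exact ⟨fun m => (s m).1, fun m => (s m).2, fun m => hf m (s m)⟩

end E

section kappa

variable {ℓ : ℕ} [hℓ : Fact ℓ.Prime] {K L : Type} [Field K] [Field L] [Algebra K L]
  {ζ : ℕ → L} {α : ℕ → L} {A : ℕ → ℕ}

/-- a compatible system of roots of the numbers `∏_{j < m} A_j^(ℓ^j)` -/
structure Sys (ℓ : ℕ) {L : Type} [Field L] (α : ℕ → L) (A : ℕ → ℕ) : Prop where
  zero : α 0 = 1
  succ : ∀ m, α (m + 1) ^ ℓ = (A m : L) * α m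
  ne : ∀ m, (A m : L) ≠ 0

theorem Sys.ne_zero (h : Sys ℓ α A) (m : ℕ) : α m ≠ 0 := by
  induction m with
  | zero => rw [h.zero]; exact one_ne_zero
  | succ m ih =>
    intro h0
    have h1 := h.succ m
    rw [h0, zero_pow hℓ.out.ne_zero] at h1
    rcases mul_eq_zero.1 h1.symm with h2 | h2
    · exact h.ne m h2
    · exact ih h2

omit hℓ in
theorem Sys.pow_eq (h : Sys ℓ α A) (m : ℕ) :
    α m ^ (ℓ ^ m) = ((∏ j ∈ Finset.range m, A j ^ (ℓ ^ j) : ℕ) : L) := by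
  induction m with
  | zero => simp [h.zero]
  | succ m ih =>
    rw [pow_succ' ℓ m, pow_mul, h.succ, mul_pow, ih, Finset.prod_range_succ]
    push_cast
    ring

theorem exists_sys [IsAlgClosed L] (A : ℕ → ℕ) (hA : ∀ m, (A m : L) ≠ 0) :
    ∃ α : ℕ → L, Sys ℓ α A := by
  have key : ∀ (m : ℕ) (x : L), ∃ y : L, y ^ ℓ = (A m : L) * x := fun m x =>
    IsAlgClosed.exists_pow_nat_eq _ hℓ.out.pos
  choose f hf using key
  exact ⟨fun m => Nat.rec 1 (fun m x => f m x) m, rfl, fun m => hf m _, hA⟩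

/-- the defining property of the Kummer cocycle -/
theorem exists_kappa (hζ : Roots ℓ ζ) (h : Sys ℓ α A) (g : Gal(L/K)) :
    ∃ κ : ℤ_[ℓ], ∀ m, g (α m) = E ζ m κ * α m := by
  have h1 : ∀ m, ∃ n : ℕ, g (α m) = ζ m ^ n * α m := by
    intro m
    have h2 : (g (α m) / α m) ^ (ℓ ^ m) = 1 := by
      rw [div_pow, ← map_pow, h.pow_eq, map_natCast, div_self]
      rw [← h.pow_eq]
      exact pow_ne_zero _ (h.ne_zero m)
    obtain ⟨n, -, hn⟩ := (hζ.prim m).eq_pow_of_pow_eq_one h2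
    exact ⟨n, by rw [hn, div_mul_cancel₀ _ (h.ne_zero m)]⟩
  choose n hn using h1
  have h3 : ∀ m, (ℓ : ℤ) ^ m ∣ (n (m + 1) : ℤ) - (n m : ℤ) := by
    intro m
    have h4 : ζ m ^ n (m + 1) = ζ m ^ n m := by
      have h5 : g (α (m + 1)) ^ ℓ = (ζ (m + 1) ^ n (m + 1) * α (m + 1)) ^ ℓ := by
        rw [hn (m + 1)]
      rw [← map_pow, h.succ, map_mul, map_natCast, hn m, mul_pow, h.succ, ← pow_mul,
        mul_comm (n (m + 1)) ℓ, pow_mul, hζ.pow] at h5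
      have h6 : (A m : L) * α m ≠ 0 := mul_ne_zero (h.ne m) (h.ne_zero m)
      apply mul_right_cancel₀ h6
      rw [← h5]
      ring
    rw [pow_eq_iff (hζ.prim m) (pow_ne_zero _ hℓ.out.ne_zero)] at h4
    have h7 := (Nat.modEq_iff_dvd.1 h4.symm)
    push_cast at h7
    exact h7
  refine ⟨PadicInt.ofIntSeq _ (PadicInt.isCauSeq_padicNorm_of_pow_dvd_sub
    (fun m => (n m : ℤ)) ℓ h3), fun m => ?_⟩
  have h8 := PadicInt.toZModPow_ofIntSeq_of_pow_dvd_sub (fun m => (n m : ℤ)) ℓ h3 m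
  rw [E_eq hζ (n := n m) (by rw [h8]; push_cast; rfl)]
  exact hn m

/-- the Kummer cocycle -/
noncomputable def kap (hζ : Roots ℓ ζ) (h : Sys ℓ α A) (g : Gal(L/K)) : ℤ_[ℓ] :=
  (exists_kappa hζ h g).choose

theorem kap_spec (hζ : Roots ℓ ζ) (h : Sys ℓ α A) (g : Gal(L/K)) (m : ℕ) :
    g (α m) = E ζ m (kap hζ h g) * α m := (exists_kappa hζ h g).choose_spec m

/-- `χ` is the cyclotomic character, for the roots `ζ` -/
def IsChi (ζ : ℕ → L) (χ : Gal(L/K) → ℤ_[ℓ]) : Prop :=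
  ∀ g m x, g (E ζ m x) = E ζ m (χ g * x)

theorem kap_mul (hζ : Roots ℓ ζ) (h : Sys ℓ α A) {χ : Gal(L/K) → ℤ_[ℓ]} (hχ : IsChi ζ χ)
    (g g' : Gal(L/K)) : kap hζ h (g * g') = kap hζ h g + χ g * kap hζ h g' := by
  apply E_inj_all hζ
  intro m
  apply mul_right_cancel₀ (h.ne_zero m)
  rw [← kap_spec hζ h, AlgEquiv.mul_apply, kap_spec hζ h g', map_mul, hχ, kap_spec hζ h g,
    E_add hζ]
  ring

theorem tendsto_of_mod {X : Type} [TopologicalSpace X] {f : X → ℤ_[ℓ]}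
    (h : ∀ x m, ∀ᶠ y in nhds x, PadicInt.toZModPow m (f y) = PadicInt.toZModPow m (f x)) :
    Continuous f := by
  rw [continuous_iff_continuousAt]
  intro x
  rw [ContinuousAt, Metric.tendsto_nhds]
  intro ε hε
  obtain ⟨k, hk⟩ := PadicInt.exists_pow_neg_lt ℓ hε
  filter_upwards [h x k] with y hy
  refine lt_of_le_of_lt ?_ hk
  rw [dist_eq_norm, PadicInt.norm_le_pow_iff_mem_span_pow, ← PadicInt.ker_toZModPow,
    RingHom.mem_ker, map_sub, hy, sub_self]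

theorem eventually_eq [Algebra.IsIntegral K L] (g : Gal(L/K)) (x : L) :
    ∀ᶠ g' in nhds g, g' x = g x := by
  have h1 : IsOpen (MulAction.stabilizer Gal(L/K) x : Set Gal(L/K)) :=
    stabilizer_isOpen_of_isIntegral x
  have h2 : IsOpen ((fun g' : Gal(L/K) => g⁻¹ * g') ⁻¹'
      (MulAction.stabilizer Gal(L/K) x : Set Gal(L/K))) :=
    h1.preimage (continuous_const.mul continuous_id)
  filter_upwards [h2.mem_nhds (by
    change g⁻¹ * g ∈ MulAction.stabilizer Gal(L/K) x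
    rw [inv_mul_cancel]
    exact one_mem _)] with g' hg'
  have h3 : (g⁻¹ * g') • x = x := hg'
  rw [mul_smul, inv_smul_eq_iff] at h3
  exact h3

theorem kap_continuous [Algebra.IsIntegral K L] (hζ : Roots ℓ ζ) (h : Sys ℓ α A) :
    Continuous (kap (K := K) hζ h) := by
  apply tendsto_of_mod
  intro g m
  filter_upwards [eventually_eq g (α m)] with g' hg'
  apply E_inj hζ
  apply mul_right_cancel₀ (h.ne_zero m)
  rw [← kap_spec hζ h, ← kap_spec hζ h, hg']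

end kappa

end Pool.Agent.N106.GAL
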