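import Mathlib
import Pool.Agent.N106.GAL.Kum
import Pool.Agent.N106.GAL.H90

/-!
# The local computation over `ℚ_p`, `p ≡ 1` modulo a power of `ℓ`
-/

namespace Pool.Agent.N106.GAL

section

variable {p : ℕ} [hp : Fact p.Prime]

/-- the absolute Galois group of `ℚ_p` -/
abbrev GP (p : ℕ) [Fact p.Prime] : Type := Gal(PadicAlgCl p/ℚ_[p])

theorem norm_map (g : GP p) (x : PadicAlgCl p) : ‖g x‖ = ‖x‖ :=
  (spectralNorm_eq_of_equiv (K := ℚ_[p]) g x).symm

theorem mem_base {y : PadicAlgCl p} (hy : ∀ g : GP p, g y = y) :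
    ∃ x : ℚ_[p], algebraMap ℚ_[p] (PadicAlgCl p) x = y := by
  have := (InfiniteGalois.mem_bot_iff_fixed (k := ℚ_[p]) y).2 hy
  rwa [IntermediateField.mem_bot] at this

theorem norm_base (x : ℚ_[p]) : ‖algebraMap ℚ_[p] (PadicAlgCl p) x‖ = ‖x‖ :=
  PadicAlgCl.norm_extends p x

theorem norm_zpow {y : PadicAlgCl p} (hy0 : y ≠ 0) (hy : ∀ g : GP p, g y = y) :
    ∃ k : ℤ, ‖y‖ = (p : ℝ) ^ k := by
  obtain ⟨x, rfl⟩ := mem_base hy
  have hx : x ≠ 0 := by
    rintro rfl
    exact hy0 (map_zero _)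
  exact ⟨_, by rw [norm_base, Padic.norm_eq_zpow_neg_valuation hx]⟩

theorem norm_nat_one {n : ℕ} (hn : p.Coprime n) : ‖(n : PadicAlgCl p)‖ = 1 := by
  have h1 := norm_base (p := p) (n : ℚ_[p])
  rw [map_natCast] at h1
  rw [h1, Padic.norm_natCast_eq_one_iff]
  exact hn

theorem norm_root {n : ℕ} (hn : n ≠ 0) {z : PadicAlgCl p} (hz : z ^ n = 1) : ‖z‖ = 1 := by
  have h1 : ‖z‖ ^ n = 1 := by rw [← norm_pow, hz, norm_one]
  exact (pow_eq_one_iff_of_nonneg (norm_nonneg _) hn).1 h1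

theorem coprime_of_dvd {n : ℕ} (h : n ∣ p - 1) : p.Coprime n := by
  rw [Nat.Prime.coprime_iff_not_dvd hp.out]
  intro h1
  have h2 := Nat.le_of_dvd (by have := hp.out.two_le; omega) (h1.trans h)
  have := hp.out.two_le
  omega

/-- `ℤ_p` contains the roots of unity of order dividing `p - 1` -/
theorem exists_prim {n : ℕ} (h : n ∣ p - 1) : ∃ z : ℤ_[p], IsPrimitiveRoot z n := by
  have hp1 : 0 < p - 1 := by have := hp.out.two_le; omega
  have hn0 : n ≠ 0 := by
    rintro rfl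
    rw [zero_dvd_iff] at h
    omega
  obtain ⟨w, hw⟩ := IsCyclic.exists_ofOrder_eq_natCard (α := (ZMod p)ˣ)
  rw [Nat.card_eq_fintype_card, ZMod.card_units] at hw
  obtain ⟨k, hk⟩ := h
  have hk0 : k ≠ 0 := by
    rintro rfl
    omega
  have hu : orderOf (w ^ k) = n := by
    rw [orderOf_pow_of_dvd hk0 (by rw [hw, hk]; exact dvd_mul_left _ _), hw, hk,
      Nat.mul_div_cancel _ (Nat.pos_of_ne_zero hk0)]
  set u : ZMod p := ((w ^ k : (ZMod p)ˣ) : ZMod p) with hudef
  have hun : u ^ n = 1 := by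
    rw [hudef, ← Units.val_pow_eq_pow_val, ← hu, pow_orderOf_eq_one, Units.val_one]
  have hu0 : u ≠ 0 := Units.ne_zero _
  let a : ℤ_[p] := (u.val : ℤ_[p])
  have ha : PadicInt.toZMod a = u := by
    change PadicInt.toZMod ((u.val : ℕ) : ℤ_[p]) = u
    rw [map_natCast, ZMod.natCast_zmod_val]
  have key : ∀ x : ℤ_[p], PadicInt.toZMod x ≠ 0 → ‖x‖ = 1 := by
    intro x hx
    by_contra hne
    have hlt : ‖x‖ < 1 := lt_of_le_of_ne (PadicInt.norm_le_one _) hne
    rw [PadicInt.norm_lt_one_iff_dvd] at hlt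
    obtain ⟨y, rfl⟩ := hlt
    apply hx
    rw [map_mul, map_natCast, ZMod.natCast_self, zero_mul]
  have key0 : ∀ x : ℤ_[p], ‖x‖ < 1 → PadicInt.toZMod x = 0 := by
    intro x hlt
    rw [PadicInt.norm_lt_one_iff_dvd] at hlt
    obtain ⟨y, rfl⟩ := hlt
    rw [map_mul, map_natCast, ZMod.natCast_self, zero_mul]
  have key1 : ∀ x : ℤ_[p], PadicInt.toZMod x = 0 → ‖x‖ < 1 := by
    intro x hx
    have h1 : x ∈ RingHom.ker (PadicInt.toZMod (p := p)) := hx
    rw [PadicInt.ker_toZMod, IsLocalRing.mem_maximalIdeal] at h1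
    exact PadicInt.not_isUnit_iff.1 h1
  have hcop : p.Coprime n := coprime_of_dvd ⟨k, hk⟩
  have hder : ‖(Polynomial.aeval a) (Polynomial.derivative
      (Polynomial.X ^ n - 1 : Polynomial ℤ_[p]))‖ = 1 := by
    apply key
    simp only [Polynomial.derivative_sub, Polynomial.derivative_X_pow, Polynomial.derivative_one,
      sub_zero, map_mul, map_pow, Polynomial.aeval_X, map_natCast]
    rw [ha]
    refine mul_ne_zero ?_ (pow_ne_zero _ hu0)
    rw [Ne, ZMod.natCast_eq_zero_iff]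
    exact (Nat.Prime.coprime_iff_not_dvd hp.out).1 hcop
  have hval : ‖(Polynomial.aeval a) (Polynomial.X ^ n - 1 : Polynomial ℤ_[p])‖ < 1 := by
    apply key1
    simp only [map_sub, map_pow, Polynomial.aeval_X, map_one]
    rw [ha, hun, sub_self]
  obtain ⟨z, hz, hz2, -⟩ := hensels_lemma (F := (Polynomial.X ^ n - 1 : Polynomial ℤ_[p]))
    (a := a) (by rw [hder, one_pow]; exact hval)
  rw [hder] at hz2
  have hzu : PadicInt.toZMod z = u := by
    have := key0 _ hz2
    rw [map_sub, ha, sub_eq_zero] at this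
    exact this
  refine ⟨z, ?_, ?_⟩
  · simpa [sub_eq_zero] using hz
  · intro l hl
    have h1 : u ^ l = 1 := by rw [← hzu, ← map_pow, hl, map_one]
    rw [← hu, orderOf_dvd_iff_pow_eq_one]
    apply Units.ext
    rw [Units.val_pow_eq_pow_val, ← hudef, h1, Units.val_one]

/-- the roots of unity of order dividing `p - 1` are fixed -/
theorem root_fixed {n : ℕ} (h : n ∣ p - 1) {z : PadicAlgCl p} (hz : z ^ n = 1) (g : GP p) :
    g z = z := by
  have hn0 : n ≠ 0 := by
    rintro rfl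
    rw [zero_dvd_iff] at h
    have := hp.out.two_le
    omega
  obtain ⟨u, hu⟩ := exists_prim h
  have hu1 : IsPrimitiveRoot (algebraMap ℚ_[p] (PadicAlgCl p) (u : ℚ_[p])) n := by
    have h1 : IsPrimitiveRoot (u : ℚ_[p]) n :=
      hu.map_of_injective (f := PadicInt.Coe.ringHom (p := p)) Subtype.coe_injective
    exact h1.map_of_injective (algebraMap ℚ_[p] (PadicAlgCl p)).injective
  have : NeZero n := ⟨hn0⟩
  obtain ⟨i, -, rfl⟩ := hu1.eq_pow_of_pow_eq_one hz
  rw [map_pow, AlgEquiv.commutes]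

theorem norm_fixed {n : ℕ} (hn : n ∣ p - 1) {β : PadicAlgCl p} (hβ : ‖β‖ = 1) {b : ℚ_[p]}
    (hb : β ^ n = algebraMap ℚ_[p] (PadicAlgCl p) b) {y : PadicAlgCl p} (hy0 : y ≠ 0)
    (hy : ∀ h : GP p, h β = β → h y = y) : ∃ k : ℤ, ‖y‖ = (p : ℝ) ^ k := by
  have hn0 : n ≠ 0 := by
    rintro rfl
    rw [zero_dvd_iff] at hn
    have := hp.out.two_le
    omega
  have hβ0 : β ≠ 0 := by
    rintro rfl
    rw [norm_zero] at hβ
    exact one_ne_zero hβ.symm
  have hw1 : ∀ g : GP p, (g β / β) ^ n = 1 := by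
    intro g
    rw [div_pow, ← map_pow, hb, AlgEquiv.commutes, div_self]
    rw [← hb]
    exact pow_ne_zero _ hβ0
  let w : GP p →* (PadicAlgCl p)ˣ :=
    { toFun := fun g => Units.mk0 (g β / β) (div_ne_zero (by simpa using hβ0) hβ0)
      map_one' := by
        apply Units.ext
        simp [hβ0]
      map_mul' := by
        intro g h
        apply Units.ext
        simp only [Units.val_mk0, Units.val_mul]
        have h1 : h β = (h β / β) * β := by rw [div_mul_cancel₀ _ hβ0]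
        rw [AlgEquiv.mul_apply]
        nth_rw 1 [h1]
        rw [map_mul, root_fixed hn (hw1 h) g]
        field_simp }
  have hwv : ∀ g : GP p, ((w g : (PadicAlgCl p)ˣ) : PadicAlgCl p) = g β / β := fun g => rfl
  have hfin : Finite w.range := by
    have : NeZero n := ⟨hn0⟩
    have hle : w.range ≤ rootsOfUnity n (PadicAlgCl p) := by
      rintro _ ⟨g, rfl⟩
      rw [mem_rootsOfUnity]
      apply Units.ext
      rw [Units.val_pow_eq_pow_val, hwv, hw1, Units.val_one]
    exact Finite.of_injective _ (Subgroup.inclusion_injective hle)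
  have hcyc : IsCyclic w.range := isCyclic_subgroup_units _
  obtain ⟨⟨om, σ, hσ⟩, hgen⟩ := IsCyclic.exists_generator (α := w.range)
  have hgen' : ∀ g : GP p, ∃ m : ℕ, w g = om ^ m := by
    intro g
    have h1 := hgen ⟨w g, g, rfl⟩
    have h2 : (⟨w g, g, rfl⟩ : w.range) ∈ Submonoid.powers (⟨om, σ, hσ⟩ : w.range) := by
      rw [mem_powers_iff_mem_zpowers]
      exact h1
    obtain ⟨m, hm⟩ := h2
    refine ⟨m, ?_⟩
    have h3 := congrArg Subtype.val hm
    simpa using h3.symm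
  set q := orderOf om with hq
  set ω : PadicAlgCl p := (om : PadicAlgCl p) with hω
  have homn : om ^ n = 1 := by
    apply Units.ext
    rw [Units.val_pow_eq_pow_val, ← hσ, hwv, hw1, Units.val_one]
  have hqn : q ∣ n := orderOf_dvd_of_pow_eq_one homn
  have hq0 : 0 < q := Nat.pos_of_dvd_of_pos hqn (Nat.pos_of_ne_zero hn0)
  have hωq : ω ^ q = 1 := by
    rw [hω, ← Units.val_pow_eq_pow_val, hq, pow_orderOf_eq_one, Units.val_one]
  have hω0 : ω ≠ 0 := Units.ne_zero _
  have hωk : ∀ k, 0 < k → k < q → ω ^ k ≠ 1 := by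
    intro k hk hkq h1
    have h2 : om ^ k = 1 := by
      apply Units.ext
      rw [Units.val_pow_eq_pow_val, ← hω, h1, Units.val_one]
    have h3 := Nat.le_of_dvd hk (orderOf_dvd_of_pow_eq_one h2)
    omega
  have hωn : ∀ k : ℕ, ∀ g : GP p, g (ω ^ k) = ω ^ k := by
    intro k g
    apply root_fixed hn
    rw [← pow_mul, mul_comm, pow_mul, hω, ← Units.val_pow_eq_pow_val, homn, Units.val_one,
      one_pow]
  have hσβ : σ β = ω * β := by
    rw [hω, ← hσ, hwv, div_mul_cancel₀ _ hβ0]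
  have hgβ : ∀ (g : GP p) (m : ℕ), w g = om ^ m → g β = ω ^ m * β := by
    intro g m h
    have h1 := congrArg Units.val h
    rw [hwv, Units.val_pow_eq_pow_val] at h1
    rw [← h1, div_mul_cancel₀ _ hβ0]
  have hσk : ∀ k : ℕ, (σ ^ k) β = ω ^ k * β := by
    intro k
    apply hgβ
    rw [map_pow, hσ]
  -- the fixed space is stable
  have hstab : ∀ (g : GP p) (x : PadicAlgCl p), (∀ h : GP p, h β = β → h x = x) →
      ∀ h : GP p, h β = β → h (g x) = g x := by
    intro g x hx h hh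
    have h1 : (g⁻¹ * h * g) β = β := by
      obtain ⟨m, hm⟩ := hgen' g
      have e1 := hgβ g m hm
      rw [AlgEquiv.mul_apply, AlgEquiv.mul_apply, e1, map_mul, hωn, hh, ← e1,
        ← AlgEquiv.mul_apply, inv_mul_cancel, AlgEquiv.one_apply]
    have h2 := hx _ h1
    have h3 := congrArg g h2
    rw [AlgEquiv.mul_apply, AlgEquiv.mul_apply, ← AlgEquiv.mul_apply g, mul_inv_cancel,
      AlgEquiv.one_apply] at h3
    exact h3
  -- eigen-components
  let Y : ℕ → PadicAlgCl p := fun j => ∑ k ∈ Finset.range q, (ω ^ (j * k))⁻¹ * (σ ^ k) y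
  have hωnorm : ∀ k : ℕ, ‖ω ^ k‖ = 1 := by
    intro k
    apply norm_root hn0
    rw [← pow_mul, mul_comm, pow_mul, hω, ← Units.val_pow_eq_pow_val, homn, Units.val_one,
      one_pow]
  have hYle : ∀ j, ‖Y j‖ ≤ ‖y‖ := by
    intro j
    obtain ⟨k, -, hk⟩ := IsUltrametricDist.exists_norm_finsetSum_le_of_nonempty
      (t := Finset.range q) (Finset.nonempty_range_iff.2 hq0.ne')
      (fun k => (ω ^ (j * k))⁻¹ * (σ ^ k) y)
    refine hk.trans (le_of_eq ?_)
    rw [norm_mul, norm_inv, hωnorm, norm_map, inv_one, one_mul]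
  have hsum : ∑ j ∈ Finset.range q, Y j = (q : PadicAlgCl p) * y := by
    change ∑ j ∈ Finset.range q, ∑ k ∈ Finset.range q, (ω ^ (j * k))⁻¹ * (σ ^ k) y = _
    rw [Finset.sum_comm]
    have h1 : ∀ k ∈ Finset.range q, ∑ j ∈ Finset.range q, (ω ^ (j * k))⁻¹ * (σ ^ k) y =
        if k = 0 then (q : PadicAlgCl p) * y else 0 := by
      intro k hk
      rw [← Finset.sum_mul]
      split_ifs with h0
      · subst h0
        simp
      · have h2 : ∑ j ∈ Finset.range q, (ω ^ (j * k))⁻¹ = 0 := by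
          have h3 : ∀ j, (ω ^ (j * k))⁻¹ = ((ω ^ k)⁻¹) ^ j := by
            intro j
            rw [inv_pow, ← pow_mul, mul_comm]
          simp only [h3]
          have h4 := geom_sum_mul ((ω ^ k)⁻¹) q
          have h5 : ((ω ^ k)⁻¹) ^ q = 1 := by
            rw [inv_pow, ← pow_mul, mul_comm, pow_mul, hωq, one_pow, inv_one]
          rw [h5, sub_self] at h4
          rcases mul_eq_zero.1 h4 with h6 | h6
          · exact h6
          · exfalso
            rw [sub_eq_zero, inv_eq_one] at h6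
            exact hωk k (Nat.pos_of_ne_zero h0) (Finset.mem_range.1 hk) h6
        rw [h2, zero_mul]
    rw [Finset.sum_congr rfl h1, Finset.sum_ite_eq' (Finset.range q) 0]
    rw [if_pos (Finset.mem_range.2 hq0)]
  obtain ⟨j, -, hj⟩ := IsUltrametricDist.exists_norm_finsetSum_le_of_nonempty
    (t := Finset.range q) (Finset.nonempty_range_iff.2 hq0.ne') Y
  have hYj : ‖Y j‖ = ‖y‖ := by
    apply le_antisymm (hYle j)
    rw [hsum, norm_mul, norm_nat_one (coprime_of_dvd (hqn.trans hn)), one_mul] at hj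
    exact hj
  have hYj0 : Y j ≠ 0 := by
    intro h0
    rw [h0, norm_zero] at hYj
    exact hy0 (norm_eq_zero.1 hYj.symm)
  have hσY : σ (Y j) = ω ^ j * Y j := by
    change σ (∑ k ∈ Finset.range q, (ω ^ (j * k))⁻¹ * (σ ^ k) y) =
      ω ^ j * ∑ k ∈ Finset.range q, (ω ^ (j * k))⁻¹ * (σ ^ k) y
    rw [map_sum, Finset.mul_sum]
    have h1 : ∀ k, σ ((ω ^ (j * k))⁻¹ * (σ ^ k) y) =
        ω ^ j * ((ω ^ (j * (k + 1)))⁻¹ * (σ ^ (k + 1)) y) := by
      intro k
      rw [map_mul, map_inv₀, hωn, pow_succ' σ k, AlgEquiv.mul_apply, mul_add, pow_add, mul_one,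
        mul_inv]
      have := pow_ne_zero j hω0
      field_simp
    simp only [h1]
    rw [← Finset.mul_sum, ← Finset.mul_sum]
    congr 1
    have h2 := Finset.sum_range_succ (fun k => (ω ^ (j * k))⁻¹ * (σ ^ k) y) q
    have h3 := Finset.sum_range_succ' (fun k => (ω ^ (j * k))⁻¹ * (σ ^ k) y) q
    have h4 : (σ ^ q) y = y := by
      apply hy
      rw [hσk, hωq, one_mul]
    rw [h2] at h3
    simp only [mul_zero, pow_zero, inv_one, one_mul, AlgEquiv.one_apply] at h3
    have h5 : (ω ^ (j * q))⁻¹ = 1 := by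
      rw [mul_comm, pow_mul, hωq, one_pow, inv_one]
    rw [h5, h4, one_mul] at h3
    exact (add_right_cancel h3).symm
  have hYfix : ∀ h : GP p, h β = β → h (Y j) = Y j := by
    intro h hh
    change h (∑ k ∈ Finset.range q, (ω ^ (j * k))⁻¹ * (σ ^ k) y) = _
    rw [map_sum]
    apply Finset.sum_congr rfl
    intro k _
    rw [map_mul, map_inv₀, hωn, hstab (σ ^ k) y hy h hh]
  have hσkY : ∀ m : ℕ, (σ ^ m) (Y j) = (ω ^ j) ^ m * Y j := by
    intro m
    induction m with
    | zero => simp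
    | succ m ih =>
      rw [pow_succ' σ m, AlgEquiv.mul_apply, ih, map_mul, ← pow_mul, hωn, hσY, pow_succ, ← pow_mul]
      ring
  obtain ⟨k, hk⟩ := norm_zpow (y := Y j / β ^ j) (div_ne_zero hYj0 (pow_ne_zero _ hβ0)) (by
    intro g
    obtain ⟨m, hm⟩ := hgen' g
    have h1 : g = σ ^ m * ((σ ^ m)⁻¹ * g) := by group
    have h2 : ((σ ^ m)⁻¹ * g) β = β := by
      rw [AlgEquiv.mul_apply, hgβ g m hm, ← hσk m, ← AlgEquiv.mul_apply, inv_mul_cancel,
        AlgEquiv.one_apply]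
    have h3 : g (Y j) = (ω ^ j) ^ m * Y j := by
      rw [h1, AlgEquiv.mul_apply, hYfix _ h2, hσkY]
    rw [map_div₀, map_pow, hgβ g m hm, h3, mul_pow, ← pow_mul, ← pow_mul, mul_comm j m]
    have := pow_ne_zero (m * j) hω0
    field_simp)
  refine ⟨k, ?_⟩
  rw [← hk, norm_div, norm_pow, hβ, one_pow, div_one, hYj]

end

end Pool.Agent.N106.GAL
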