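import Mathlib
import Pool.Agent.N106.GAL.Loc

/-!
# The local contradiction
-/

namespace Pool.Agent.N106.GAL

section

variable {p : ℕ} [hp : Fact p.Prime] {ℓ : ℕ} [hℓ : Fact ℓ.Prime] {ζ : ℕ → PadicAlgCl p}

theorem E_mul_zero (hζ : Roots ℓ ζ) {M : ℕ} {x y : ℤ_[ℓ]} (h : PadicInt.toZModPow M y = 0) :
    E ζ M (x * y) = 1 := by
  rw [E_eq_one_iff hζ, map_mul, h, mul_zero]

theorem loc_main (hζ : Roots ℓ ζ) {M : ℕ} (hM : ℓ ^ M ∣ p - 1) {α β : PadicAlgCl p}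
    (hα0 : α ≠ 0) {b : ℚ_[p]} (hb : β ^ (ℓ ^ M) = algebraMap ℚ_[p] (PadicAlgCl p) b)
    (hβ : ‖β‖ = 1) {v D : ℕ} (hα : ‖α‖ ^ (ℓ ^ M) = ((p : ℝ) ^ v)⁻¹)
    (ka kb c : GP p → ℤ_[ℓ]) (hka : ∀ g, g α = E ζ M (ka g) * α)
    (hkb : ∀ g, g β = E ζ M (kb g) * β)
    (hc : ∀ g h, E ζ M (c (g * h)) = E ζ M (c g + c h + (D : ℤ_[ℓ]) * ka g * kb h))
    (X : Set (PadicAlgCl p)) [Finite X] (hX : ∀ g : GP p, (∀ x ∈ X, g x = x) → E ζ M (c g) = 1)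
    (s : GP p) : E ζ M (((v * D : ℕ) : ℤ_[ℓ]) * kb s) = 1 := by
  have hβ0 : β ≠ 0 := by
    rintro rfl
    rw [norm_zero] at hβ
    exact one_ne_zero hβ.symm
  have hroot : ∀ (g : GP p) (x : ℤ_[ℓ]), g (E ζ M x) = E ζ M x := fun g x =>
    root_fixed hM (pow_E hζ M x) g
  have hkb0 : ∀ h : GP p, h β = β → PadicInt.toZModPow M (kb h) = 0 := by
    intro h hh
    rw [← E_eq_one_iff hζ]
    have h1 := hkb h
    rw [hh] at h1
    have h2 : (1 : PadicAlgCl p) * β = E ζ M (kb h) * β := by rw [one_mul]; exact h1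
    exact (mul_right_cancel₀ hβ0 h2).symm
  let H : Subgroup (GP p) := MulAction.stabilizer (GP p) β
  let K : IntermediateField ℚ_[p] (PadicAlgCl p) := IntermediateField.fixedField H
  have hβK : β ∈ K := by
    rw [IntermediateField.mem_fixedField_iff]
    intro f hf
    exact hf
  have hgal : IsGalois K (PadicAlgCl p) := inferInstance
  let ρ : Gal(PadicAlgCl p/K) → GP p := fun g => g.restrictScalars ℚ_[p]
  have hρ : ∀ g h, ρ (g * h) = ρ g * ρ h := fun g h => rfl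
  have hρβ : ∀ g, ρ g β = β := fun g => g.commutes ⟨β, hβK⟩
  obtain ⟨Y, hY0, hY⟩ := h90 (K := K) (L := PadicAlgCl p) (fun g => E ζ M (c (ρ g)))
    (by
      intro g h
      rw [hρ, hc, E_add hζ, E_add hζ, E_mul_zero hζ (hkb0 _ (hρβ h)), mul_one])
    (by
      intro g h
      exact hroot (ρ g) _)
    (fun g => E_ne_zero hζ M _) X
    (by
      intro g hg
      exact hX (ρ g) hg)
  have hYH : ∀ h : GP p, h β = β → h Y = E ζ M (c h) * Y := by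
    intro h hh
    have hcom : ∀ x : K, h.toRingEquiv (algebraMap K (PadicAlgCl p) x) =
        algebraMap K (PadicAlgCl p) x := by
      rintro ⟨x, hx⟩
      rw [IntermediateField.mem_fixedField_iff] at hx
      exact hx h hh
    exact hY (AlgEquiv.ofRingEquiv hcom)
  obtain ⟨n, hn⟩ := exists_nat M (kb s)
  -- the element
  have hx0 : s Y / (Y * α ^ (D * n)) ≠ 0 :=
    div_ne_zero (by simpa using hY0) (mul_ne_zero hY0 (pow_ne_zero _ hα0))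
  obtain ⟨k, hk⟩ := norm_fixed hM hβ hb hx0 (by
    intro h hh
    have h2β : (s⁻¹ * h * s) β = β := by
      rw [AlgEquiv.mul_apply, AlgEquiv.mul_apply, hkb s, map_mul, hh, hroot, ← hkb s,
        ← AlgEquiv.mul_apply, inv_mul_cancel, AlgEquiv.one_apply]
    have e1 : h (s Y) = E ζ M (c (s⁻¹ * h * s)) * s Y := by
      have e2 : h (s Y) = s ((s⁻¹ * h * s) Y) := by
        rw [← AlgEquiv.mul_apply, ← AlgEquiv.mul_apply]
        congr 1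
        group
      rw [e2, hYH _ h2β, map_mul, hroot]
    have e3 : E ζ M (c (s⁻¹ * h * s)) = E ζ M (c h) * E ζ M (ka h) ^ (D * n) := by
      have e4 := hc s (s⁻¹ * h * s)
      have e5 := hc h s
      have e6 : s * (s⁻¹ * h * s) = h * s := by group
      rw [e6, e5, E_add hζ, E_add hζ, E_add hζ, E_add hζ, E_mul_zero hζ (hkb0 _ h2β),
        mul_one] at e4
      have e7 : E ζ M ((D : ℤ_[ℓ]) * ka h * kb s) = E ζ M (ka h) ^ (D * n) := by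
        rw [← E_mul_nat hζ]
        apply E_congr
        rw [map_mul, map_mul, map_mul, hn, Nat.cast_mul, map_mul, map_natCast, map_natCast]
        ring
      rw [e7] at e4
      have e8 : E ζ M (c s) ≠ 0 := E_ne_zero hζ M _
      apply mul_left_cancel₀ e8
      rw [← e4]
      ring
    have e9 : h (α ^ (D * n)) = E ζ M (ka h) ^ (D * n) * α ^ (D * n) := by
      rw [map_pow, hka, mul_pow]
    rw [map_div₀, map_mul, e1, hYH h hh, e9, e3]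
    have f1 : E ζ M (c h) ≠ 0 := E_ne_zero hζ M _
    have f2 : E ζ M (ka h) ^ (D * n) ≠ 0 := pow_ne_zero _ (E_ne_zero hζ M _)
    have f3 : α ^ (D * n) ≠ 0 := pow_ne_zero _ hα0
    field_simp)
  have hYn : ‖Y‖ ≠ 0 := by
    rw [Ne, norm_eq_zero]
    exact hY0
  have hαn : ‖α‖ ≠ 0 := by
    rw [Ne, norm_eq_zero]
    exact hα0
  have h1 : ‖s Y / (Y * α ^ (D * n))‖ = (‖α‖ ^ (D * n))⁻¹ := by
    rw [norm_div, norm_mul, norm_map, norm_pow]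
    field_simp
  rw [h1] at hk
  have h2 : ((‖α‖ ^ (D * n))⁻¹) ^ (ℓ ^ M) = (p : ℝ) ^ ((v * (D * n) : ℕ) : ℤ) := by
    rw [inv_pow, ← pow_mul, mul_comm, pow_mul, hα, inv_pow, inv_inv, ← pow_mul, zpow_natCast]
  rw [hk, ← zpow_natCast, ← zpow_mul] at h2
  have hp1 : (1 : ℝ) < p := by exact_mod_cast hp.out.one_lt
  have h3 : k * ((ℓ ^ M : ℕ) : ℤ) = ((v * (D * n) : ℕ) : ℤ) :=
    zpow_right_injective₀ (by linarith) (by linarith) h2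
  have h4 : (ℓ ^ M) ∣ v * (D * n) := by
    have : ((ℓ ^ M : ℕ) : ℤ) ∣ ((v * (D * n) : ℕ) : ℤ) := ⟨k, by rw [← h3]; ring⟩
    exact_mod_cast this
  rw [E_eq_one_iff hζ, map_mul, hn, map_natCast, ← Nat.cast_mul, ZMod.natCast_eq_zero_iff,
    mul_assoc]
  exact h4

theorem norm_nat_val {v A' : ℕ} (hA : ¬ p ∣ A') :
    ‖((p ^ v * A' : ℕ) : PadicAlgCl p)‖ = ((p : ℝ) ^ v)⁻¹ := by
  rw [Nat.cast_mul, norm_mul, norm_nat_one ((Nat.Prime.coprime_iff_not_dvd hp.out).2 hA), mul_one,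
    Nat.cast_pow, norm_pow]
  have h1 := norm_base (p := p) (p : ℚ_[p])
  rw [map_natCast] at h1
  rw [h1, Padic.norm_p, inv_pow]

theorem loc_contra (hζ : Roots ℓ ζ) {i : ℕ} (hM : ℓ ^ (3 * i + 1) ∣ p - 1)
    {α β : PadicAlgCl p} {A' B : ℕ} (hα : α ^ (ℓ ^ (3 * i + 1)) = ((p ^ (ℓ ^ i) * A' : ℕ) : PadicAlgCl p))
    (hA : ¬ p ∣ A') (hβ : β ^ (ℓ ^ (3 * i + 1)) = (B : PadicAlgCl p)) (hB : ¬ p ∣ B)
    (hpow : ∀ x : ℕ, ¬ x ^ (ℓ ^ (i + 1)) ≡ B [MOD p])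
    (ka kb c : GP p → ℤ_[ℓ]) (hka : ∀ g, g α = E ζ (3 * i + 1) (ka g) * α)
    (hkb : ∀ g, g β = E ζ (3 * i + 1) (kb g) * β)
    (hc : ∀ g h, E ζ (3 * i + 1) (c (g * h)) =
      E ζ (3 * i + 1) (c g + c h + ((ℓ ^ i : ℕ) : ℤ_[ℓ]) * ka g * kb h))
    (X : Set (PadicAlgCl p)) [Finite X]
    (hX : ∀ g : GP p, (∀ x ∈ X, g x = x) → E ζ (3 * i + 1) (c g) = 1) : False := by
  have hℓ0 : ℓ ^ (3 * i + 1) ≠ 0 := pow_ne_zero _ hℓ.out.ne_zero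
  have hp0 : (p : ℝ) ≠ 0 := by exact_mod_cast hp.out.ne_zero
  have hαn : ‖α‖ ^ (ℓ ^ (3 * i + 1)) = ((p : ℝ) ^ (ℓ ^ i))⁻¹ := by
    rw [← norm_pow, hα, norm_nat_val hA]
  have hα0 : α ≠ 0 := by
    rintro rfl
    rw [norm_zero, zero_pow hℓ0] at hαn
    exact inv_ne_zero (pow_ne_zero _ hp0) hαn.symm
  have hβn : ‖β‖ = 1 := by
    have h1 : ‖β‖ ^ (ℓ ^ (3 * i + 1)) = 1 := by
      rw [← norm_pow, hβ, norm_nat_one ((Nat.Prime.coprime_iff_not_dvd hp.out).2 hB)]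
    exact (pow_eq_one_iff_of_nonneg (norm_nonneg _) hℓ0).1 h1
  have main := loc_main hζ hM (α := α) (β := β) hα0 (b := (B : ℚ_[p])) (by rw [hβ, map_natCast])
    hβn hαn ka kb c hka hkb hc X hX
  -- `β ^ (ℓ^(2i))` is in the base field
  have hfix : ∀ g : GP p, g (β ^ (ℓ ^ i * ℓ ^ i)) = β ^ (ℓ ^ i * ℓ ^ i) := by
    intro g
    rw [map_pow, hkb, mul_pow, ← E_nat_mul hζ, main g, one_mul]
  obtain ⟨x, hx⟩ := mem_base hfix
  have hx1 : x ^ (ℓ ^ (i + 1)) = (B : ℚ_[p]) := by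
    apply (algebraMap ℚ_[p] (PadicAlgCl p)).injective
    rw [map_pow, hx, map_natCast, ← hβ, ← pow_mul]
    congr 1
    ring
  have hx2 : ‖x‖ = 1 := by
    rw [← norm_base, hx, norm_pow, hβn, one_pow]
  let y : ℤ_[p] := ⟨x, hx2.le⟩
  have hy : y ^ (ℓ ^ (i + 1)) = (B : ℤ_[p]) := by
    apply Subtype.coe_injective
    simp only [y]
    push_cast
    exact hx1
  apply hpow (PadicInt.toZMod y).val
  rw [← ZMod.natCast_eq_natCast_iff]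
  push_cast
  rw [ZMod.natCast_zmod_val, ← map_pow, hy, map_natCast]

/-- nonsplitting -/
theorem loc_nonsplit (hζ : Roots ℓ ζ) {i : ℕ}
    {α : PadicAlgCl p} {A' : ℕ} (hα : α ^ (ℓ ^ (3 * i + 1)) = ((p ^ (ℓ ^ i) * A' : ℕ) : PadicAlgCl p))
    (hA : ¬ p ∣ A') (ka : GP p → ℤ_[ℓ]) (hka : ∀ g, g α = E ζ (3 * i + 1) (ka g) * α)
    (h0 : ∀ g, E ζ (3 * i + 1) (((ℓ ^ i : ℕ) : ℤ_[ℓ]) * ka g) = 1) : False := by
  have hℓ0 : ℓ ^ (3 * i + 1) ≠ 0 := pow_ne_zero _ hℓ.out.ne_zero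
  have hp0 : (p : ℝ) ≠ 0 := by exact_mod_cast hp.out.ne_zero
  have hαn : ‖α‖ ^ (ℓ ^ (3 * i + 1)) = ((p : ℝ) ^ (ℓ ^ i))⁻¹ := by
    rw [← norm_pow, hα, norm_nat_val hA]
  have hα0 : α ≠ 0 := by
    rintro rfl
    rw [norm_zero, zero_pow hℓ0] at hαn
    exact inv_ne_zero (pow_ne_zero _ hp0) hαn.symm
  have hfix : ∀ g : GP p, g (α ^ (ℓ ^ i)) = α ^ (ℓ ^ i) := by
    intro g
    rw [map_pow, hka, mul_pow, ← E_nat_mul hζ, h0 g, one_mul]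
  obtain ⟨k, hk⟩ := norm_zpow (pow_ne_zero _ hα0) hfix
  have h1 : ‖α ^ (ℓ ^ i)‖ ^ (ℓ ^ (2 * i + 1)) = (p : ℝ) ^ (-((ℓ ^ i : ℕ) : ℤ)) := by
    rw [norm_pow, ← pow_mul, ← pow_add, show i + (2 * i + 1) = 3 * i + 1 by ring, hαn, zpow_neg,
      zpow_natCast]
  rw [hk, ← zpow_natCast, ← zpow_mul] at h1
  have hp1 : (1 : ℝ) < p := by exact_mod_cast hp.out.one_lt
  have h3 : k * ((ℓ ^ (2 * i + 1) : ℕ) : ℤ) = -((ℓ ^ i : ℕ) : ℤ) :=
    zpow_right_injective₀ (by linarith) (by linarith) h1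
  have h4 : ℓ ^ (2 * i + 1) ∣ ℓ ^ i := by
    have : ((ℓ ^ (2 * i + 1) : ℕ) : ℤ) ∣ ((ℓ ^ i : ℕ) : ℤ) := ⟨-k, by linarith [h3]⟩
    exact_mod_cast this
  have h5 := Nat.pow_dvd_pow_iff_le_right' (b := ℓ - 2) (k := 2 * i + 1) (l := i)
  have h6 : ℓ - 2 + 2 = ℓ := by have := hℓ.out.two_le; omega
  rw [h6] at h5
  have := h5.1 h4
  omega

end

end Pool.Agent.N106.GAL
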