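import Mathlib

/-!
# The numbers `p m`, `A m`, `B m`
-/

namespace Pool.Agent.N106.GAL

open Finset

section root

variable {ℓ : ℕ} [hℓ : Fact ℓ.Prime]

/-- `ℓ^m`-th roots of the principal units `1 + ℓ^(2m+1) x`. -/
theorem pow_root (m : ℕ) (x : ℤ_[ℓ]) (hx : ‖x - 1‖ ≤ (ℓ : ℝ) ^ (-((2 * m + 1 : ℕ) : ℤ))) :
    ∃ y : ℤ_[ℓ], y ^ (ℓ ^ m) = x := by
  have hl1 : (1 : ℝ) < ℓ := by exact_mod_cast hℓ.out.one_lt
  have hder : (Polynomial.X ^ (ℓ ^ m) - Polynomial.C x : Polynomial ℤ_[ℓ]).derivative.aeval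
      (1 : ℤ_[ℓ]) = (ℓ : ℤ_[ℓ]) ^ m := by
    simp [Polynomial.derivative_X_pow]
  have hval : (Polynomial.X ^ (ℓ ^ m) - Polynomial.C x : Polynomial ℤ_[ℓ]).aeval
      (1 : ℤ_[ℓ]) = 1 - x := by
    simp
  have hn : ‖(Polynomial.X ^ (ℓ ^ m) - Polynomial.C x : Polynomial ℤ_[ℓ]).aeval (1 : ℤ_[ℓ])‖ <
      ‖(Polynomial.X ^ (ℓ ^ m) - Polynomial.C x : Polynomial ℤ_[ℓ]).derivative.aeval
        (1 : ℤ_[ℓ])‖ ^ 2 := by
    rw [hder, hval, norm_pow, PadicInt.norm_p, norm_sub_rev]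
    refine lt_of_le_of_lt hx ?_
    rw [← zpow_natCast, ← zpow_natCast, inv_zpow', ← zpow_mul]
    exact zpow_lt_zpow_right₀ hl1 (by push_cast; ring_nf; omega)
  obtain ⟨z, hz, -⟩ := hensels_lemma hn
  refine ⟨z, ?_⟩
  have h1 : z ^ (ℓ ^ m) - x = 0 := by simpa using hz
  exact sub_eq_zero.1 h1

theorem nat_root (m : ℕ) (a : ℕ) (ha : a ≡ 1 [MOD ℓ ^ (2 * m + 1)]) (K : ℕ) :
    ∃ y : ℕ, a * y ^ (ℓ ^ m) ≡ 1 [MOD ℓ ^ K] := by
  have h1 : ‖(a : ℤ_[ℓ]) - 1‖ ≤ (ℓ : ℝ) ^ (-((2 * m + 1 : ℕ) : ℤ)) := by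
    rw [PadicInt.norm_le_pow_iff_mem_span_pow, ← PadicInt.ker_toZModPow, RingHom.mem_ker, map_sub,
      map_one, map_natCast, sub_eq_zero]
    exact_mod_cast (ZMod.natCast_eq_natCast_iff _ _ _).2 ha
  obtain ⟨z, hz⟩ := pow_root m _ h1
  have hu : IsUnit (a : ℤ_[ℓ]) := by
    rw [PadicInt.isUnit_iff]
    by_contra hc
    have h2 : ‖(a : ℤ_[ℓ])‖ < 1 := lt_of_le_of_ne (PadicInt.norm_le_one _) hc
    have h3 : ‖(a : ℤ_[ℓ]) - 1‖ < 1 := by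
      refine lt_of_le_of_lt h1 ?_
      have hl1 : (1 : ℝ) < ℓ := by exact_mod_cast hℓ.out.one_lt
      exact zpow_lt_one_of_neg₀ hl1 (by omega)
    have h4 : ‖(1 : ℤ_[ℓ])‖ < 1 := by
      have : (1 : ℤ_[ℓ]) = a + -(a - 1) := by ring
      rw [this]
      refine lt_of_le_of_lt (PadicInt.nonarchimedean (a : ℤ_[ℓ]) (-((a : ℤ_[ℓ]) - 1))) ?_
      rw [norm_neg]
      exact max_lt h2 h3
    simp at h4
  have hzu : IsUnit z := by
    have : IsUnit (z ^ (ℓ ^ m)) := hz ▸ hu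
    exact (isUnit_pow_iff (pow_ne_zero _ hℓ.out.ne_zero)).1 this
  obtain ⟨w, hw⟩ := hzu.exists_right_inv
  refine ⟨w.appr K, ?_⟩
  rw [← ZMod.natCast_eq_natCast_iff]
  have h5 : (PadicInt.toZModPow K w : ZMod (ℓ ^ K)) = (w.appr K : ℕ) := by
    rfl
  push_cast
  rw [← h5, ← map_pow, ← map_natCast (PadicInt.toZModPow (p := ℓ) K) a, ← map_mul, ← hz,
    ← mul_pow, hw, one_pow, map_one]

end root

/-- For a prime `p = 1 mod ℓ^(i+1)` and `b` prime to `p` there is `c` prime to `p` such that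
`b c^(ℓ^i)` is not an `ℓ^(i+1)`-th power modulo `p`. -/
theorem exists_nonpower {ℓ : ℕ} (hℓ : ℓ.Prime) (i p : ℕ) (hp : p.Prime)
    (h1 : ℓ ^ (i + 1) ∣ p - 1) (b : ℕ) (hb : ¬ p ∣ b) :
    ∃ c : ℕ, ¬ p ∣ c ∧ ∀ x : ℕ, ¬ x ^ (ℓ ^ (i + 1)) ≡ b * c ^ (ℓ ^ i) [MOD p] := by
  have : Fact p.Prime := ⟨hp⟩
  by_cases h : ∃ x : ℕ, x ^ (ℓ ^ (i + 1)) ≡ b [MOD p]
  · obtain ⟨t, ht⟩ := h
    obtain ⟨g, hg⟩ := IsCyclic.exists_generator (α := (ZMod p)ˣ)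
    have hord : orderOf g = p - 1 := by
      rw [orderOf_eq_card_of_forall_mem_zpowers hg, Nat.card_eq_fintype_card, ZMod.card_units]
    refine ⟨(g : ZMod p).val, ?_, ?_⟩
    · intro hd
      have : ((g : ZMod p).val : ZMod p) = 0 := (ZMod.natCast_eq_zero_iff _ _).2 hd
      rw [ZMod.natCast_zmod_val] at this
      exact g.ne_zero this
    · intro x hx
      rw [← ZMod.natCast_eq_natCast_iff] at hx ht
      push_cast at hx ht
      rw [ZMod.natCast_zmod_val, ← ht] at hx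
      have hb0 : (b : ZMod p) ≠ 0 := fun h0 => hb ((ZMod.natCast_eq_zero_iff _ _).1 h0)
      have ht0 : (t : ZMod p) ≠ 0 := by
        intro h0
        apply hb0
        rw [← ht, h0, zero_pow (pow_ne_zero _ hℓ.ne_zero)]
      have hr : ((x : ZMod p) / t) ^ (ℓ ^ (i + 1)) = (g : ZMod p) ^ (ℓ ^ i) := by
        rw [div_pow, hx, mul_div_cancel_left₀]
        exact pow_ne_zero _ ht0
      obtain ⟨k, hk⟩ := h1
      have hx0 : (x : ZMod p) / t ≠ 0 := by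
        intro h0
        rw [h0, zero_pow (pow_ne_zero _ hℓ.ne_zero)] at hr
        exact pow_ne_zero _ g.ne_zero hr.symm
      have h2 : (g : ZMod p) ^ (ℓ ^ i * k) = 1 := by
        rw [pow_mul, ← hr, ← pow_mul, ← hk]
        exact ZMod.pow_card_sub_one_eq_one hx0
      have h3 : g ^ (ℓ ^ i * k) = 1 := by
        apply Units.ext
        push_cast
        exact h2
      have h4 : p - 1 ∣ ℓ ^ i * k := hord ▸ orderOf_dvd_of_pow_eq_one h3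
      have hk0 : 0 < ℓ ^ i * k := by
        rcases Nat.eq_zero_or_pos k with h0 | h0
        · rw [h0, mul_zero] at hk
          have := hp.two_le
          omega
        · exact Nat.mul_pos (pow_pos hℓ.pos _) h0
      have h5 := Nat.le_of_dvd hk0 h4
      rw [hk, pow_succ] at h5
      have h6 := hℓ.two_le
      have h7 : ℓ ^ i * ℓ * k = ℓ * (ℓ ^ i * k) := by ring
      rw [h7] at h5
      nlinarith
  · refine ⟨1, ?_, ?_⟩
    · intro hd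
      exact hp.one_lt.ne' (Nat.dvd_one.1 hd)
    · intro x hx
      exact h ⟨x, by simpa using hx⟩

/-- One step. -/
theorem exists_step {ℓ : ℕ} (hℓ : ℓ.Prime) (m a b Q : ℕ) (ha : a ≡ 1 [MOD ℓ ^ (2 * m + 1)])
    (hb : b ≡ 1 [MOD ℓ ^ (2 * m + 1)]) (hQ : Q.Coprime ℓ) (ha0 : 0 < a) (hb0 : 0 < b)
    (hQ0 : 0 < Q) :
    ∃ p A B : ℕ, p.Prime ∧ p ≡ 1 [MOD ℓ ^ (3 * m + 1)] ∧ a * b * Q < p ∧ 0 < A ∧ 0 < B ∧
      A ≡ 1 [MOD Q] ∧ B ≡ 1 [MOD Q] ∧ p ∣ A ∧ ¬ p ^ 2 ∣ A ∧ ¬ p ∣ B ∧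
      a * A ^ (ℓ ^ m) ≡ 1 [MOD ℓ ^ (2 * (m + 1) + 1)] ∧
      b * B ^ (ℓ ^ m) ≡ 1 [MOD ℓ ^ (2 * (m + 1) + 1)] ∧
      (∀ x : ℕ, ¬ x ^ (ℓ ^ (m + 1)) ≡ b * B ^ (ℓ ^ m) [MOD p]) := by
  have : Fact ℓ.Prime := ⟨hℓ⟩
  obtain ⟨p, hp, hpl, hpm⟩ := Nat.exists_prime_gt_modEq_one (k := ℓ ^ (3 * m + 1)) (a * b * Q)
    (pow_ne_zero _ hℓ.ne_zero)
  obtain ⟨y, hy⟩ := nat_root m a ha (2 * (m + 1) + 1)
  obtain ⟨y', hy'⟩ := nat_root m b hb (2 * (m + 1) + 1)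
  have hab : 0 < a * b := Nat.mul_pos ha0 hb0
  have hbp : ¬ p ∣ b := by
    intro hd
    have h1 := Nat.le_of_dvd hb0 hd
    have : b ≤ a * b * Q := by
      calc b = 1 * b * 1 := by ring
        _ ≤ a * b * Q := by gcongr <;> omega
    omega
  have hQp : ¬ p ∣ Q := by
    intro hd
    have h1 := Nat.le_of_dvd hQ0 hd
    have : Q ≤ a * b * Q := Nat.le_mul_of_pos_left _ hab
    omega
  have hd : ℓ ^ (3 * m + 1) ∣ p - 1 := (Nat.modEq_iff_dvd' hp.one_lt.le).1 hpm.symm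
  have hpl' : Nat.Coprime p ℓ := by
    rw [Nat.coprime_primes hp hℓ]
    rintro rfl
    have h1 : p ∣ p - 1 := (dvd_pow_self p (by omega)).trans hd
    have h2 := Nat.le_of_dvd (by have := hp.two_le; omega) h1
    have := hp.two_le
    omega
  obtain ⟨c, hc, hc'⟩ := exists_nonpower hℓ m p hp ((pow_dvd_pow ℓ (by omega)).trans hd) b hbp
  have cop1 : Nat.Coprime (ℓ ^ (2 * (m + 1) + 1)) Q := (Nat.Coprime.pow_right _ hQ).symm
  have cop2 : Nat.Coprime (ℓ ^ (2 * (m + 1) + 1) * Q) p := by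
    refine Nat.Coprime.mul_left (Nat.Coprime.pow_left _ hpl'.symm) ?_
    exact ((Nat.Prime.coprime_iff_not_dvd hp).2 hQp).symm
  have cop3 : Nat.Coprime (ℓ ^ (2 * (m + 1) + 1) * Q) (p ^ 2) := Nat.Coprime.pow_right _ cop2
  obtain ⟨u, hu1, hu2⟩ := Nat.chineseRemainder cop1 y 1
  obtain ⟨A, hA1, hA2⟩ := Nat.chineseRemainder cop3 u p
  obtain ⟨u', hu1', hu2'⟩ := Nat.chineseRemainder cop1 y' 1
  obtain ⟨B, hB1, hB2⟩ := Nat.chineseRemainder cop2 u' c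
  have hAp : p ∣ A := by
    have h1 : A ≡ p [MOD p] := hA2.of_dvd (dvd_pow_self p two_ne_zero)
    have h2 : A ≡ 0 [MOD p] := h1.trans (Nat.modEq_zero_iff_dvd.2 dvd_rfl)
    exact Nat.modEq_zero_iff_dvd.1 h2
  have hAp2 : ¬ p ^ 2 ∣ A := by
    intro h
    have h1 : p ≡ 0 [MOD p ^ 2] := hA2.symm.trans (Nat.modEq_zero_iff_dvd.2 h)
    have h2 := Nat.le_of_dvd hp.pos (Nat.modEq_zero_iff_dvd.1 h1)
    have := hp.two_le
    nlinarith
  have hBp : ¬ p ∣ B := by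
    intro h
    apply hc
    exact Nat.modEq_zero_iff_dvd.1 (hB2.symm.trans (Nat.modEq_zero_iff_dvd.2 h))
  refine ⟨p, A, B, hp, hpm, hpl, ?_, ?_, ?_, ?_, hAp, hAp2, hBp, ?_, ?_, ?_⟩
  · exact Nat.pos_of_ne_zero fun h => hAp2 (h ▸ dvd_zero _)
  · exact Nat.pos_of_ne_zero fun h => hBp (h ▸ dvd_zero _)
  · exact (hA1.of_dvd (Dvd.intro_left _ rfl)).trans hu2
  · exact (hB1.of_dvd (Dvd.intro_left _ rfl)).trans hu2'
  · have h1 : A ≡ y [MOD ℓ ^ (2 * (m + 1) + 1)] := (hA1.of_dvd (Dvd.intro _ rfl)).trans hu1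
    exact ((h1.pow _).mul_left _).trans hy
  · have h1 : B ≡ y' [MOD ℓ ^ (2 * (m + 1) + 1)] := (hB1.of_dvd (Dvd.intro _ rfl)).trans hu1'
    exact ((h1.pow _).mul_left _).trans hy'
  · intro x hx
    exact hc' x (hx.trans ((hB2.pow _).mul_left _))

/-- The state of the recursion. -/
structure St (ℓ m : ℕ) where
  a : ℕ
  b : ℕ
  Q : ℕ
  ha : a ≡ 1 [MOD ℓ ^ (2 * m + 1)]
  hb : b ≡ 1 [MOD ℓ ^ (2 * m + 1)]
  hQ : Q.Coprime ℓ
  ha0 : 0 < a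
  hb0 : 0 < b
  hQ0 : 0 < Q

/-- The sequences. -/
theorem exists_seq {ℓ : ℕ} (hℓ : ℓ.Prime) : ∃ p A B : ℕ → ℕ,
    (∀ m, (p m).Prime) ∧ (∀ m, p m ≡ 1 [MOD ℓ ^ (3 * m + 1)]) ∧ (∀ m, 0 < A m) ∧
    (∀ m, 0 < B m) ∧ (∀ m, p m ∣ A m) ∧ (∀ m, ¬ p m ^ 2 ∣ A m) ∧
    (∀ m j, j ≠ m → ¬ p m ∣ A j) ∧ (∀ m j, ¬ p m ∣ B j) ∧
    (∀ m, ∏ j ∈ range m, A j ^ (ℓ ^ j) ≡ 1 [MOD ℓ ^ (2 * m + 1)]) ∧
    (∀ m, ∏ j ∈ range m, B j ^ (ℓ ^ j) ≡ 1 [MOD ℓ ^ (2 * m + 1)]) ∧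
    (∀ m M, m < M → ∀ x : ℕ, ¬ x ^ (ℓ ^ (m + 1)) ≡ ∏ j ∈ range M, B j ^ (ℓ ^ j) [MOD p m]) := by
  choose P F G h using fun (m : ℕ) (s : St ℓ m) =>
    exists_step hℓ m s.a s.b s.Q s.ha s.hb s.hQ s.ha0 s.hb0 s.hQ0
  let nx : (m : ℕ) → St ℓ m → St ℓ (m + 1) := fun m s =>
    { a := s.a * F m s ^ (ℓ ^ m)
      b := s.b * G m s ^ (ℓ ^ m)
      Q := s.Q * P m s
      ha := (h m s).2.2.2.2.2.2.2.2.2.2.1
      hb := (h m s).2.2.2.2.2.2.2.2.2.2.2.1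
      hQ := by
        refine Nat.Coprime.mul_left s.hQ ?_
        rw [Nat.coprime_primes (h m s).1 hℓ]
        intro he
        have hd : ℓ ^ (3 * m + 1) ∣ P m s - 1 :=
          (Nat.modEq_iff_dvd' (h m s).1.one_lt.le).1 (h m s).2.1.symm
        have h1 : ℓ ∣ P m s - 1 := (dvd_pow_self ℓ (by omega)).trans hd
        rw [he] at h1
        have h2 := Nat.le_of_dvd (by have := hℓ.two_le; omega) h1
        have := hℓ.two_le
        omega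
      ha0 := Nat.mul_pos s.ha0 (pow_pos (h m s).2.2.2.1 _)
      hb0 := Nat.mul_pos s.hb0 (pow_pos (h m s).2.2.2.2.1 _)
      hQ0 := Nat.mul_pos s.hQ0 (h m s).1.pos }
  let S : (m : ℕ) → St ℓ m := fun m => Nat.rec
    { a := 1, b := 1, Q := 1, ha := rfl, hb := rfl, hQ := Nat.coprime_one_left _,
      ha0 := one_pos, hb0 := one_pos, hQ0 := one_pos } nx m
  have hS : ∀ m, S (m + 1) = nx m (S m) := fun m => rfl
  let p : ℕ → ℕ := fun m => P m (S m)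
  let A : ℕ → ℕ := fun m => F m (S m)
  let B : ℕ → ℕ := fun m => G m (S m)
  have ea : ∀ m, (S m).a = ∏ j ∈ range m, A j ^ (ℓ ^ j) := by
    intro m
    induction m with
    | zero => rfl
    | succ m ih => rw [prod_range_succ, ← ih]
  have eb : ∀ m, (S m).b = ∏ j ∈ range m, B j ^ (ℓ ^ j) := by
    intro m
    induction m with
    | zero => rfl
    | succ m ih => rw [prod_range_succ, ← ih]
  have eQ : ∀ m, (S m).Q = ∏ j ∈ range m, p j := by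
    intro m
    induction m with
    | zero => rfl
    | succ m ih => rw [prod_range_succ, ← ih]
  have hlt : ∀ m, (S m).a * (S m).b * (S m).Q < p m := fun m => (h m (S m)).2.2.1
  -- the old numbers are smaller than the new prime
  have hA1 : ∀ m j, j < m → A j < p m := by
    intro m j hj
    have h1 : A j ∣ (S m).a := by
      rw [ea]
      exact (dvd_pow_self _ (pow_ne_zero _ hℓ.ne_zero)).trans (dvd_prod_of_mem _ (mem_range.2 hj))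
    have h2 := Nat.le_of_dvd (S m).ha0 h1
    have h3 : (S m).a * 1 * 1 ≤ (S m).a * (S m).b * (S m).Q := by
      have := (S m).hb0
      have := (S m).hQ0
      gcongr <;> omega
    have := hlt m
    omega
  have hB1 : ∀ m j, j < m → B j < p m := by
    intro m j hj
    have h1 : B j ∣ (S m).b := by
      rw [eb]
      exact (dvd_pow_self _ (pow_ne_zero _ hℓ.ne_zero)).trans (dvd_prod_of_mem _ (mem_range.2 hj))
    have h2 := Nat.le_of_dvd (S m).hb0 h1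
    have h3 : 1 * (S m).b * 1 ≤ (S m).a * (S m).b * (S m).Q := by
      have := (S m).ha0
      have := (S m).hQ0
      gcongr <;> omega
    have := hlt m
    omega
  have hpQ : ∀ m j, m < j → p m ∣ (S j).Q := by
    intro m j hj
    rw [eQ]
    exact dvd_prod_of_mem _ (mem_range.2 hj)
  have hAmod : ∀ m j, m < j → A j ≡ 1 [MOD p m] := fun m j hj =>
    ((h j (S j)).2.2.2.2.2.1).of_dvd (hpQ m j hj)
  have hBmod : ∀ m j, m < j → B j ≡ 1 [MOD p m] := fun m j hj =>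
    ((h j (S j)).2.2.2.2.2.2.1).of_dvd (hpQ m j hj)
  have hpp : ∀ m, (p m).Prime := fun m => (h m (S m)).1
  have hA0 : ∀ m, 0 < A m := fun m => (h m (S m)).2.2.2.1
  have hB0 : ∀ m, 0 < B m := fun m => (h m (S m)).2.2.2.2.1
  refine ⟨p, A, B, hpp, fun m => (h m (S m)).2.1, hA0, hB0, fun m => (h m (S m)).2.2.2.2.2.2.2.1,
    fun m => (h m (S m)).2.2.2.2.2.2.2.2.1, ?_, ?_, ?_, ?_, ?_⟩
  · intro m j hj hd
    rcases lt_or_gt_of_ne hj with h1 | h1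
    · have := Nat.le_of_dvd (hA0 j) hd
      have := hA1 m j h1
      omega
    · have h2 : (1 : ℕ) ≡ 0 [MOD p m] := (hAmod m j h1).symm.trans (Nat.modEq_zero_iff_dvd.2 hd)
      exact (hpp m).one_lt.ne' (Nat.dvd_one.1 (Nat.modEq_zero_iff_dvd.1 h2))
  · intro m j hd
    rcases lt_trichotomy j m with h1 | h1 | h1
    · have := Nat.le_of_dvd (hB0 j) hd
      have := hB1 m j h1
      omega
    · subst h1
      exact (h j (S j)).2.2.2.2.2.2.2.2.2.1 hd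
    · have h2 : (1 : ℕ) ≡ 0 [MOD p m] := (hBmod m j h1).symm.trans (Nat.modEq_zero_iff_dvd.2 hd)
      exact (hpp m).one_lt.ne' (Nat.dvd_one.1 (Nat.modEq_zero_iff_dvd.1 h2))
  · intro m
    rw [← ea]
    exact (S m).ha
  · intro m
    rw [← eb]
    exact (S m).hb
  · intro m M hM x hx
    have h1 : ∀ M, m < M → ∏ j ∈ range M, B j ^ (ℓ ^ j) ≡
        (S m).b * B m ^ (ℓ ^ m) [MOD p m] := by
      intro M hM
      induction M, hM using Nat.le_induction with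
      | base => rw [prod_range_succ, ← eb]
      | succ M hM ih =>
        rw [prod_range_succ]
        have h2 := ih.mul ((hBmod m M hM).pow (ℓ ^ M))
        rw [one_pow, mul_one] at h2
        exact h2
    exact (h m (S m)).2.2.2.2.2.2.2.2.2.2.2.2 x (hx.trans (h1 M hM))

end Pool.Agent.N106.GAL
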