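import Mathlib
import Pool.Agent.N106.GAL.Seq
import Pool.Agent.N106.GAL.Loc2

/-!
# The Kummer cocycles of `ℚ` and their properties
-/

open Finset

namespace Pool.Agent.N106.GAL

/-- the `ℓ`-adic cyclotomic character of the absolute Galois group of `ℚ` -/
noncomputable def chi (ℓ : ℕ) [Fact ℓ.Prime] (g : GQ) : ℤ_[ℓ] :=
  ((cyclotomicCharacter (AlgebraicClosure ℚ) ℓ g.toRingEquiv : ℤ_[ℓ]ˣ) : ℤ_[ℓ])

section

variable {ℓ : ℕ} [hℓ : Fact ℓ.Prime]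

theorem chi_continuous : Continuous (chi ℓ) :=
  Units.continuous_val.comp (cyclotomicCharacter.continuous ℓ ℚ (AlgebraicClosure ℚ))

theorem chi_mul (g h : GQ) : chi ℓ (g * h) = chi ℓ g * chi ℓ h := by
  have h1 : (g * h).toRingEquiv = g.toRingEquiv * h.toRingEquiv := rfl
  unfold chi
  rw [h1, map_mul, Units.val_mul]

theorem chi_one : chi ℓ 1 = 1 := by
  have h1 : (1 : GQ).toRingEquiv = 1 := rfl
  unfold chi
  rw [h1, map_one, Units.val_one]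

theorem chi_ne_zero (g : GQ) : chi ℓ g ≠ 0 := Units.ne_zero _

theorem chi_spec (g : GQ) {n : ℕ} {t : AlgebraicClosure ℚ} (ht : t ^ ℓ ^ n = 1) :
    g t = t ^ (PadicInt.toZModPow n (chi ℓ g)).val :=
  cyclotomicCharacter.spec ℓ g.toRingEquiv t ht

theorem chi_isChi {ζ : ℕ → AlgebraicClosure ℚ} (hζ : Roots ℓ ζ) : IsChi ζ (chi ℓ) := by
  intro g m x
  rw [chi_spec g (pow_E hζ m x), ← E_nat_mul hζ]
  apply E_congr
  rw [map_mul, map_mul, map_natCast, ZMod.natCast_zmod_val]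

end

theorem exists_restr_gen {F Om : Type} [Field F] [Field Om] [Algebra F Om]
    (ι : AlgebraicClosure F →+* Om)
    (hι : ∀ x : F, algebraMap F Om x = ι (algebraMap F (AlgebraicClosure F) x)) (g : Gal(Om/F)) :
    ∃ g' : AbsGal F, ∀ x, ι (g' x) = g (ι x) := by
  letI : Algebra (AlgebraicClosure F) Om := ι.toAlgebra
  haveI : IsScalarTower F (AlgebraicClosure F) Om := IsScalarTower.of_algebraMap_eq hι
  exact ⟨g.restrictNormal (AlgebraicClosure F), fun x =>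
    AlgEquiv.restrictNormal_commutes g (AlgebraicClosure F) x⟩

theorem exists_emb_gen (F Om : Type) [Field F] [Field Om] [Algebra F Om] [IsAlgClosed Om] :
    Nonempty (AlgebraicClosure F →+* Om) :=
  ⟨(IsAlgClosed.lift (R := F) (S := AlgebraicClosure F) (M := Om)).toRingHom⟩

section restriction

variable {p : ℕ} [hp : Fact p.Prime]

/-- restriction of automorphisms, for an embedding of the algebraic numbers -/
theorem exists_restr (ι : AlgebraicClosure ℚ →+* PadicAlgCl p) (g : GP p) :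
    ∃ g' : GQ, ∀ x, ι (g' x) = g (ι x) :=
  exists_restr_gen ι (fun x => by rw [eq_ratCast, eq_ratCast, map_ratCast]) (g.restrictScalars ℚ)

theorem restr_unique (ι : AlgebraicClosure ℚ →+* PadicAlgCl p) {g h : GQ}
    (h0 : ∀ x, ι (g x) = ι (h x)) : g = h :=
  AlgEquiv.ext fun x => ι.injective (h0 x)

/-- restriction -/
noncomputable def restr (ι : AlgebraicClosure ℚ →+* PadicAlgCl p) (g : GP p) : GQ :=
  (exists_restr ι g).choose

theorem restr_spec (ι : AlgebraicClosure ℚ →+* PadicAlgCl p) (g : GP p) (x : AlgebraicClosure ℚ) :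
    ι (restr ι g x) = g (ι x) := (exists_restr ι g).choose_spec x

theorem restr_mul (ι : AlgebraicClosure ℚ →+* PadicAlgCl p) (g h : GP p) :
    restr ι (g * h) = restr ι g * restr ι h := by
  apply restr_unique ι
  intro x
  rw [restr_spec, AlgEquiv.mul_apply, AlgEquiv.mul_apply, restr_spec, restr_spec]

theorem exists_emb : Nonempty (AlgebraicClosure ℚ →+* PadicAlgCl p) :=
  exists_emb_gen ℚ (PadicAlgCl p)

theorem map_E {ℓ : ℕ} [Fact ℓ.Prime] {L L' : Type} [Field L] [Field L'] (ι : L →+* L') (ζ : ℕ → L)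
    (m : ℕ) (x : ℤ_[ℓ]) : ι (E ζ m x) = E (fun m => ι (ζ m)) m x := by
  unfold E
  rw [map_pow]

theorem map_Roots {ℓ : ℕ} {L L' : Type} [Field L] [Field L'] (ι : L →+* L') {ζ : ℕ → L}
    (h : Roots ℓ ζ) : Roots ℓ (fun m => ι (ζ m)) where
  prim := fun m => (h.prim m).map_of_injective ι.injective
  pow := fun m => by rw [← map_pow, h.pow]

end restriction

section

variable {ℓ : ℕ} [hℓ : Fact ℓ.Prime]

/-- a `ℚ_ℓ`-valued continuous function on a compact space is bounded -/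
theorem exists_bound {c : GQ → ℚ_[ℓ]} (hc : Continuous c) :
    ∃ (N : ℕ) (c' : GQ → ℤ_[ℓ]), Continuous c' ∧ ∀ g, (c' g : ℚ_[ℓ]) = (ℓ : ℚ_[ℓ]) ^ N * c g := by
  obtain ⟨C, hC⟩ := (isCompact_range hc).isBounded.exists_norm_le
  have hℓ1 : (1 : ℝ) < ℓ := by exact_mod_cast hℓ.out.one_lt
  obtain ⟨N, hN⟩ := pow_unbounded_of_one_lt C hℓ1
  have hle : ∀ g, ‖(ℓ : ℚ_[ℓ]) ^ N * c g‖ ≤ 1 := by
    intro g
    rw [norm_mul, norm_pow, Padic.norm_p, inv_pow]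
    have h1 := hC _ ⟨g, rfl⟩
    have h2 : (0 : ℝ) < (ℓ : ℝ) ^ N := by positivity
    rw [inv_mul_le_iff₀ h2]
    linarith
  exact ⟨N, fun g => ⟨_, hle g⟩, Continuous.subtype_mk (continuous_const.mul hc) _, fun g => rfl⟩

theorem exists_finset_of_nhds {K L : Type} [Field K] [Field L] [Algebra K L]
    {s : Set Gal(L/K)} (hs : s ∈ nhds 1) :
    ∃ X : Set L, Finite X ∧ ∀ g : Gal(L/K), (∀ x ∈ X, g x = x) → g ∈ s := by
  rw [krullTopology_mem_nhds_one_iff] at hs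
  obtain ⟨F, hF, hsub⟩ := hs
  let b := Module.finBasis K F
  refine ⟨Set.range (fun i => ((b i : F) : L)), Set.finite_range _, ?_⟩
  intro g hg
  apply hsub
  rw [SetLike.mem_coe, IntermediateField.mem_fixingSubgroup_iff]
  intro x hx
  have h7 : (⟨x, hx⟩ : F) = ∑ i, b.repr ⟨x, hx⟩ i • b i := (b.sum_repr _).symm
  have h8 : x = ∑ i, b.repr ⟨x, hx⟩ i • ((b i : F) : L) := by
    have h9 := congrArg F.val h7
    rw [map_sum] at h9
    refine h9.trans (Finset.sum_congr rfl fun i _ => ?_)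
    rw [map_smul]
    rfl
  rw [h8, map_sum]
  apply Finset.sum_congr rfl
  intro i _
  rw [map_smul, hg _ ⟨i, rfl⟩]

/-- a continuous function vanishing at `1` is trivial modulo `ℓ^M` on an open subgroup -/
theorem exists_open {c : GQ → ℤ_[ℓ]} (hc : Continuous c) (h1 : c 1 = 0) (M : ℕ) :
    ∃ X : Set (AlgebraicClosure ℚ), Finite X ∧
      ∀ g : GQ, (∀ x ∈ X, g x = x) → PadicInt.toZModPow M (c g) = 0 := by
  have hℓ1 : (1 : ℝ) < ℓ := by exact_mod_cast hℓ.out.one_lt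
  refine exists_finset_of_nhds ?_
  have h3 := (hc.tendsto 1)
  rw [h1] at h3
  have h4 : Metric.ball (0 : ℤ_[ℓ]) ((ℓ : ℝ) ^ (-(M : ℤ))) ∈ nhds (0 : ℤ_[ℓ]) :=
    Metric.ball_mem_nhds _ (by positivity)
  filter_upwards [h3 h4] with g hg
  have h5 : ‖c g‖ < (ℓ : ℝ) ^ (-(M : ℤ)) := by
    rw [← dist_zero_right]
    exact hg
  have h6 := h5.le
  rw [PadicInt.norm_le_pow_iff_mem_span_pow, ← PadicInt.ker_toZModPow, RingHom.mem_ker] at h6
  exact h6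

end

/-! ### The main statement -/

section main

variable {ℓ : ℕ} [hℓ : Fact ℓ.Prime]

/-- the properties of the two Kummer cocycles -/
structure Pair (ℓ : ℕ) [Fact ℓ.Prime] (ka kb : GQ → ℤ_[ℓ]) : Prop where
  mul_a : ∀ g h, ka (g * h) = ka g + chi ℓ g * ka h
  mul_b : ∀ g h, kb (g * h) = kb g + chi ℓ g * kb h
  cont_a : Continuous ka
  cont_b : Continuous kb
  loc_a : ∀ ι : AlgebraicClosure ℚ →+* PadicAlgCl ℓ, ∃ u : ℤ_[ℓ], ∀ (σ : GP ℓ) (g : GQ),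
    (∀ x, ι (g x) = σ (ι x)) → ka g = (chi ℓ g - 1) * u
  loc_b : ∀ ι : AlgebraicClosure ℚ →+* PadicAlgCl ℓ, ∃ u : ℤ_[ℓ], ∀ (σ : GP ℓ) (g : GQ),
    (∀ x, ι (g x) = σ (ι x)) → kb g = (chi ℓ g - 1) * u
  ne_a : ¬ ∃ x : ℚ_[ℓ], ∀ g, (ka g : ℚ_[ℓ]) = (1 - (chi ℓ g : ℚ_[ℓ])) * x
  noc : ¬ ∃ c : GQ → ℚ_[ℓ], Continuous c ∧ ∀ g h, c (g * h) = c g + (chi ℓ g : ℚ_[ℓ]) ^ 2 * c h +
    (chi ℓ g : ℚ_[ℓ]) * (ka g : ℚ_[ℓ]) * (kb h : ℚ_[ℓ])

/-- the condition at `ℓ` -/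
theorem loc_ell {ζ α : ℕ → AlgebraicClosure ℚ} {A : ℕ → ℕ} (hζ : Roots ℓ ζ) (h : Sys ℓ α A)
    (t : ℕ → ℤ_[ℓ]) (ht : ∀ m, ((t m : ℚ_[ℓ])) ^ (ℓ ^ m) =
      ((∏ j ∈ range m, A j ^ (ℓ ^ j) : ℕ) : ℚ_[ℓ]))
    (ι : AlgebraicClosure ℚ →+* PadicAlgCl ℓ) :
    ∃ u : ℤ_[ℓ], ∀ (σ : GP ℓ) (g : GQ),
      (∀ x, ι (g x) = σ (ι x)) → kap hζ h g = (chi ℓ g - 1) * u := by
  have h1 : ∀ m, ∃ n : ℕ, ι (α m) = ι (E ζ m (n : ℤ_[ℓ])) *
      algebraMap ℚ_[ℓ] (PadicAlgCl ℓ) (t m : ℚ_[ℓ]) := by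
    intro m
    have e1 : ι (α m) ^ (ℓ ^ m) = (algebraMap ℚ_[ℓ] (PadicAlgCl ℓ) (t m : ℚ_[ℓ])) ^ (ℓ ^ m) := by
      rw [← map_pow, h.pow_eq, ← map_pow, ht, map_natCast, map_natCast]
    have e2 : algebraMap ℚ_[ℓ] (PadicAlgCl ℓ) (t m : ℚ_[ℓ]) ≠ 0 := by
      intro h0
      rw [h0, zero_pow (pow_ne_zero _ hℓ.out.ne_zero)] at e1
      have := pow_eq_zero_iff (pow_ne_zero m hℓ.out.ne_zero) |>.1 e1
      exact h.ne_zero m ((map_eq_zero _).1 this)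
    have e3 : (ι (α m) / algebraMap ℚ_[ℓ] (PadicAlgCl ℓ) (t m : ℚ_[ℓ])) ^ (ℓ ^ m) = 1 := by
      rw [div_pow, e1, div_self (pow_ne_zero _ e2)]
    obtain ⟨n, hn⟩ := exists_E (map_Roots ι hζ) e3
    refine ⟨n, ?_⟩
    rw [map_E, ← hn, div_mul_cancel₀ _ e2]
  choose n hn using h1
  have h2 : ∀ (σ : GP ℓ) (g : GQ), (∀ x, ι (g x) = σ (ι x)) → ∀ m,
      PadicInt.toZModPow m (kap hζ h g) =
        PadicInt.toZModPow m ((chi ℓ g - 1) * (n m : ℤ_[ℓ])) := by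
    intro σ g hσ m
    apply E_inj hζ
    have e1 := hσ (α m)
    rw [kap_spec hζ h, hn, map_mul, map_mul, AlgEquiv.commutes, ← hσ, chi_isChi hζ, hn] at e1
    have e2 : algebraMap ℚ_[ℓ] (PadicAlgCl ℓ) (t m : ℚ_[ℓ]) ≠ 0 := by
      intro h0
      have h3 := hn m
      rw [h0, mul_zero] at h3
      exact h.ne_zero m ((map_eq_zero _).1 h3)
    rw [← mul_assoc, mul_left_inj' e2, ← map_mul] at e1
    have e3 := ι.injective e1
    apply mul_right_cancel₀ (E_ne_zero hζ m (n m : ℤ_[ℓ]))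
    rw [e3, ← E_add hζ]
    congr 1
    ring
  obtain ⟨u, -, φ, hφ, hu⟩ := isCompact_univ.tendsto_subseq
    (x := fun m => (n m : ℤ_[ℓ])) (fun m => Set.mem_univ _)
  refine ⟨u, fun σ g hσ => ?_⟩
  have h3 := h2 σ g hσ
  have h4 : Filter.Tendsto (fun m => kap hζ h g - (chi ℓ g - 1) * (n (φ m) : ℤ_[ℓ])) Filter.atTop
      (nhds 0) := by
    rw [Metric.tendsto_atTop]
    intro ε hε
    obtain ⟨k, hk⟩ := PadicInt.exists_pow_neg_lt ℓ hε
    refine ⟨k, fun m hm => ?_⟩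
    rw [dist_zero_right]
    have h5 : ‖kap hζ h g - (chi ℓ g - 1) * (n (φ m) : ℤ_[ℓ])‖ ≤ (ℓ : ℝ) ^ (-(φ m : ℤ)) := by
      rw [PadicInt.norm_le_pow_iff_mem_span_pow, ← PadicInt.ker_toZModPow, RingHom.mem_ker,
        map_sub, h3, sub_self]
    have h6 : (ℓ : ℝ) ^ (-(φ m : ℤ)) ≤ (ℓ : ℝ) ^ (-(k : ℤ)) := by
      apply zpow_le_zpow_right₀
      · exact_mod_cast hℓ.out.one_lt.le
      · have := hφ.id_le m
        simp only [id] at this
        omega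
    linarith
  have h5 : Filter.Tendsto (fun m => kap hζ h g - (chi ℓ g - 1) * (n (φ m) : ℤ_[ℓ])) Filter.atTop
      (nhds (kap hζ h g - (chi ℓ g - 1) * u)) :=
    tendsto_const_nhds.sub (tendsto_const_nhds.mul hu)
  exact sub_eq_zero.1 (tendsto_nhds_unique h5 h4)

end main

end Pool.Agent.N106.GAL
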