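import Mathlib
import Pool.Agent.N106.GAL.Glob

/-!
# Existence of the two Kummer cocycles
-/

open Finset

namespace Pool.Agent.N106.GAL

variable {ℓ : ℕ} [hℓ : Fact ℓ.Prime]

omit hℓ in
theorem prod_decomp {p : ℕ} (hp : p.Prime) {A : ℕ → ℕ} {i M : ℕ} (hi : i < M) (h1 : p ∣ A i)
    (h2 : ¬ p ^ 2 ∣ A i) (h3 : ∀ j, j ≠ i → ¬ p ∣ A j) :
    ∃ A', ∏ j ∈ range M, A j ^ (ℓ ^ j) = p ^ (ℓ ^ i) * A' ∧ ¬ p ∣ A' := by
  obtain ⟨a, ha⟩ := h1
  refine ⟨a ^ (ℓ ^ i) * ∏ j ∈ (range M).erase i, A j ^ (ℓ ^ j), ?_, ?_⟩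
  · rw [← mul_prod_erase (range M) (fun j => A j ^ (ℓ ^ j)) (mem_range.2 hi), ha, mul_pow]
    ring
  · rw [hp.dvd_mul, not_or]
    constructor
    · intro h
      have h4 := hp.dvd_of_dvd_pow h
      apply h2
      rw [ha, pow_two]
      exact mul_dvd_mul_left p h4
    · rw [(Nat.Prime.prime hp).dvd_finsetProd_iff]
      rintro ⟨j, hj, hd⟩
      exact h3 j (ne_of_mem_erase hj) (hp.dvd_of_dvd_pow hd)

omit hℓ in
theorem prod_not_dvd {p : ℕ} (hp : p.Prime) {A : ℕ → ℕ} {M : ℕ} (h3 : ∀ j, ¬ p ∣ A j) :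
    ¬ p ∣ ∏ j ∈ range M, A j ^ (ℓ ^ j) := by
  rw [(Nat.Prime.prime hp).dvd_finsetProd_iff]
  rintro ⟨j, -, hd⟩
  exact h3 j (hp.dvd_of_dvd_pow hd)

/-- the cyclotomic character on the decomposition group at `p` -/
theorem chi_restr {ζ : ℕ → AlgebraicClosure ℚ} (hζ : Roots ℓ ζ) {p : ℕ} [hp : Fact p.Prime]
    (ι : AlgebraicClosure ℚ →+* PadicAlgCl p) {M : ℕ} (hM : ℓ ^ M ∣ p - 1) (g : GP p) :
    PadicInt.toZModPow M (chi ℓ (restr ι g)) = 1 := by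
  have h1 := chi_isChi hζ (restr ι g) M 1
  have h2 : ι (restr ι g (E ζ M (1 : ℤ_[ℓ]))) = ι (E ζ M (1 : ℤ_[ℓ])) := by
    rw [restr_spec]
    apply root_fixed hM
    rw [← map_pow, pow_E hζ, map_one]
  rw [h1] at h2
  have h3 := E_inj hζ (ι.injective h2)
  rw [mul_one, map_one] at h3
  exact h3

theorem padic_mul_bound (x : ℚ_[ℓ]) : ∃ (N : ℕ) (y : ℤ_[ℓ]), (y : ℚ_[ℓ]) = (ℓ : ℚ_[ℓ]) ^ N * x := by
  have hℓ1 : (1 : ℝ) < ℓ := by exact_mod_cast hℓ.out.one_lt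
  obtain ⟨N, hN⟩ := pow_unbounded_of_one_lt ‖x‖ hℓ1
  have hle : ‖(ℓ : ℚ_[ℓ]) ^ N * x‖ ≤ 1 := by
    rw [norm_mul, norm_pow, Padic.norm_p, inv_pow]
    have h2 : (0 : ℝ) < (ℓ : ℝ) ^ N := by positivity
    rw [inv_mul_le_iff₀ h2]
    linarith
  exact ⟨N, ⟨_, hle⟩, rfl⟩

theorem exists_pair (ℓ : ℕ) [hℓ : Fact ℓ.Prime] : ∃ ka kb : GQ → ℤ_[ℓ], Pair ℓ ka kb := by
  obtain ⟨p, A, B, hp, hp1, hA0, hB0, hpA, hpA2, hpAj, hpB, hAm, hBm, hBp⟩ := exists_seq hℓ.out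
  obtain ⟨ζ, hζ⟩ := exists_roots (ℓ := ℓ) (L := AlgebraicClosure ℚ)
  obtain ⟨α, hα⟩ := exists_sys (ℓ := ℓ) (L := AlgebraicClosure ℚ) A
    (fun m => Nat.cast_ne_zero.2 (hA0 m).ne')
  obtain ⟨β, hβ⟩ := exists_sys (ℓ := ℓ) (L := AlgebraicClosure ℚ) B
    (fun m => Nat.cast_ne_zero.2 (hB0 m).ne')
  have hM : ∀ m, ℓ ^ (3 * m + 1) ∣ p m - 1 := fun m =>
    (Nat.modEq_iff_dvd' (hp m).one_lt.le).1 (hp1 m).symm
  have hroot : ∀ C : ℕ → ℕ, (∀ m, ∏ j ∈ range m, C j ^ (ℓ ^ j) ≡ 1 [MOD ℓ ^ (2 * m + 1)]) →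
      ∃ t : ℕ → ℤ_[ℓ], ∀ m, ((t m : ℚ_[ℓ])) ^ (ℓ ^ m) =
        ((∏ j ∈ range m, C j ^ (ℓ ^ j) : ℕ) : ℚ_[ℓ]) := by
    intro C hC
    have h1 : ∀ m, ∃ t : ℤ_[ℓ], t ^ (ℓ ^ m) = ((∏ j ∈ range m, C j ^ (ℓ ^ j) : ℕ) : ℤ_[ℓ]) := by
      intro m
      apply pow_root
      rw [PadicInt.norm_le_pow_iff_mem_span_pow, ← PadicInt.ker_toZModPow, RingHom.mem_ker, map_sub,
        map_one, map_natCast, sub_eq_zero]
      have := (ZMod.natCast_eq_natCast_iff _ _ _).2 (hC m)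
      rw [Nat.cast_one] at this
      exact this
    choose t ht using h1
    refine ⟨t, fun m => ?_⟩
    have := congrArg (fun x : ℤ_[ℓ] => (x : ℚ_[ℓ])) (ht m)
    simp only [PadicInt.coe_pow, PadicInt.coe_natCast] at this
    exact this
  obtain ⟨ta, hta⟩ := hroot A hAm
  obtain ⟨tb, htb⟩ := hroot B hBm
  let ka : GQ → ℤ_[ℓ] := kap hζ hα
  let kb : GQ → ℤ_[ℓ] := kap hζ hβ
  have hka : ∀ (g : GQ) m, g (α m) = E ζ m (ka g) * α m := fun g m => kap_spec hζ hα g m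
  have hkb : ∀ (g : GQ) m, g (β m) = E ζ m (kb g) * β m := fun g m => kap_spec hζ hβ g m
  refine ⟨ka, kb, kap_mul hζ hα (chi_isChi hζ), kap_mul hζ hβ (chi_isChi hζ),
    kap_continuous hζ hα, kap_continuous hζ hβ, loc_ell hζ hα ta hta, loc_ell hζ hβ tb htb,
    ?_, ?_⟩
  · rintro ⟨x, hx⟩
    obtain ⟨i, y, hy⟩ := padic_mul_bound x
    have : Fact (p i).Prime := ⟨hp i⟩
    obtain ⟨ι⟩ := exists_emb (p := p i)
    obtain ⟨A', hA', hA''⟩ := prod_decomp (ℓ := ℓ) (hp i) (i := i) (M := 3 * i + 1) (by omega)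
      (hpA i) (hpA2 i) (hpAj i)
    refine loc_nonsplit (map_Roots ι hζ) (i := i) (α := ι (α (3 * i + 1))) (A' := A') ?_ hA''
      (fun g => ka (restr ι g)) ?_ ?_
    · rw [← map_pow, hα.pow_eq, hA', map_natCast]
    · intro g
      rw [← restr_spec, hka, map_mul, map_E]
    · intro g
      rw [E_eq_one_iff (map_Roots ι hζ)]
      have h1 : ((ℓ ^ i : ℕ) : ℤ_[ℓ]) * ka (restr ι g) = (1 - chi ℓ (restr ι g)) * y := by
        apply Subtype.coe_injective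
        have h2 := hx (restr ι g)
        simp only [PadicInt.coe_mul, PadicInt.coe_sub, PadicInt.coe_one, PadicInt.coe_natCast]
        rw [h2, hy]
        push_cast
        ring
      rw [h1, map_mul, map_sub, chi_restr hζ ι (hM i), map_one, sub_self, zero_mul]
  · rintro ⟨c, hc, hcc⟩
    obtain ⟨i, c', hc', hcc'⟩ := exists_bound hc
    have hmul : ∀ g h, c' (g * h) = c' g + chi ℓ g ^ 2 * c' h +
        ((ℓ ^ i : ℕ) : ℤ_[ℓ]) * (chi ℓ g * ka g * kb h) := by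
      intro g h
      apply Subtype.coe_injective
      simp only [PadicInt.coe_mul, PadicInt.coe_add, PadicInt.coe_pow, PadicInt.coe_natCast]
      rw [hcc', hcc', hcc', hcc]
      push_cast
      ring
    have hka1 : ka 1 = 0 := by
      have h1 := kap_mul hζ hα (chi_isChi hζ) (1 : GQ) 1
      rw [mul_one, chi_one, one_mul] at h1
      have h2 : ka 1 = ka 1 + ka 1 := h1
      simpa using h2
    have hc1 : c' 1 = 0 := by
      have h1 := hmul 1 1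
      rw [mul_one, chi_one, hka1] at h1
      simpa using h1
    obtain ⟨X, hX, hXc⟩ := exists_open hc' hc1 (3 * i + 1)
    have : Fact (p i).Prime := ⟨hp i⟩
    obtain ⟨ι⟩ := exists_emb (p := p i)
    obtain ⟨A', hA', hA''⟩ := prod_decomp (ℓ := ℓ) (hp i) (i := i) (M := 3 * i + 1) (by omega)
      (hpA i) (hpA2 i) (hpAj i)
    have hfin : Finite (ι '' X) := Set.Finite.image _ hX
    refine loc_contra (map_Roots ι hζ) (i := i) (hM i) (α := ι (α (3 * i + 1)))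
      (β := ι (β (3 * i + 1))) (A' := A') (B := ∏ j ∈ range (3 * i + 1), B j ^ (ℓ ^ j)) ?_ hA'' ?_
      (prod_not_dvd (hp i) (hpB i)) (hBp i (3 * i + 1) (by omega))
      (fun g => ka (restr ι g)) (fun g => kb (restr ι g)) (fun g => c' (restr ι g)) ?_ ?_ ?_
      (ι '' X) ?_
    · rw [← map_pow, hα.pow_eq, hA', map_natCast]
    · rw [← map_pow, hβ.pow_eq, map_natCast]
    · intro g
      rw [← restr_spec, hka, map_mul, map_E]
    · intro g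
      rw [← restr_spec, hkb, map_mul, map_E]
    · intro g h
      apply E_congr
      rw [restr_mul, hmul]
      simp only [map_add, map_mul, map_pow, chi_restr hζ ι (hM i)]
      ring
    · intro g hg
      rw [E_eq_one_iff (map_Roots ι hζ)]
      apply hXc
      intro x hx
      apply ι.injective
      rw [restr_spec]
      exact hg _ ⟨x, hx, rfl⟩

end Pool.Agent.N106.GAL
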